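import Pool.Agent.Run7.h733.CP.Pat

/-!
First and second differences of the law of the connection pattern.
-/

set_option maxHeartbeats 1000000

namespace Pool.Agent.Run7.h733.CP

open H974 H973S H12S Finset MeasureTheory

variable {n : ℕ}

theorem move_comm (x : Fin n → ℤ) (i j : Fin n) : move (move x i) j = move (move x j) i := by
  by_cases h : i = j
  · subst h; rfl
  · ext k
    by_cases h1 : k = j
    · subst h1
      rw [move_self, move_ne x (Ne.symm h), move_ne _ (Ne.symm h), move_self]
    · rw [move_ne _ h1]
      by_cases h2 : k = i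
      · subst h2
        rw [move_self, move_self, move_ne x h1]
      · rw [move_ne _ h2, move_ne _ h2, move_ne _ h1]

/-- A function which vanishes outside `E` and is bounded by `c`. -/
theorem int_le {f : (sqLattice.edgeSet → Bool) → ℝ} (hf : Measurable f)
    {E : Set (sqLattice.edgeSet → Bool)} (hE : MeasurableSet E) {c : ℝ}
    (h1 : ∀ ω, |f ω| ≤ c) (h2 : ∀ ω, ω ∉ E → f ω = 0) : |∫ ω, f ω ∂mu| ≤ c * mu.real E := by
  have hint : Integrable f mu :=
    Integrable.of_bound hf.aestronglyMeasurable c (Filter.Eventually.of_forall h1)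
  have h3 : |∫ ω, f ω ∂mu| ≤ ∫ ω, |f ω| ∂mu := abs_integral_le_integral_abs
  refine h3.trans ?_
  have h4 : ∫ ω, E.indicator (fun _ => c) ω ∂mu = c * mu.real E := by
    rw [integral_indicator_const c hE, smul_eq_mul, mul_comm]
  rw [← h4]
  apply integral_mono hint.abs ((integrable_const c).indicator hE)
  intro ω
  by_cases h : ω ∈ E
  · rw [Set.indicator_of_mem h]; exact h1 ω
  · rw [Set.indicator_of_notMem h]
    simp only
    rw [h2 ω h, abs_zero]

/-- The indicator function of a set of patterns. -/
noncomputable def phi (A : Set (Finset (Fin (n + 1) × Fin (n + 1)))) (x : Fin n → ℤ)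
    (ω : sqLattice.edgeSet → Bool) : ℝ := {ω | pat x ω ∈ A}.indicator (fun _ => (1:ℝ)) ω

theorem phi_meas (A : Set (Finset (Fin (n + 1) × Fin (n + 1)))) (x : Fin n → ℤ) :
    Measurable (phi A x) := measurable_const.indicator (meas_pat x A)

theorem phi_int (A : Set (Finset (Fin (n + 1) × Fin (n + 1)))) (x : Fin n → ℤ) :
    ∫ ω, phi A x ω ∂mu = prob x A := by
  unfold phi prob
  rw [integral_indicator_const 1 (meas_pat x A), smul_eq_mul, mul_one]

theorem phi_integrable (A : Set (Finset (Fin (n + 1) × Fin (n + 1)))) (x : Fin n → ℤ) :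
    Integrable (phi A x) mu := (integrable_const 1).indicator (meas_pat x A)

theorem phi_01 (A : Set (Finset (Fin (n + 1) × Fin (n + 1)))) (x : Fin n → ℤ)
    (ω : sqLattice.edgeSet → Bool) : 0 ≤ phi A x ω ∧ phi A x ω ≤ 1 := by
  unfold phi
  by_cases h : ω ∈ {ω | pat x ω ∈ A}
  · rw [Set.indicator_of_mem h]; norm_num
  · rw [Set.indicator_of_notMem h]; norm_num

theorem phi_congr (A : Set (Finset (Fin (n + 1) × Fin (n + 1)))) {x y : Fin n → ℤ}
    {ω : sqLattice.edgeSet → Bool} (h : pat x ω = pat y ω) : phi A x ω = phi A y ω := by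
  unfold phi
  by_cases h1 : pat x ω ∈ A
  · have h2 : pat y ω ∈ A := by rw [← h]; exact h1
    rw [Set.indicator_of_mem (show ω ∈ {ω | pat x ω ∈ A} from h1),
      Set.indicator_of_mem (show ω ∈ {ω | pat y ω ∈ A} from h2)]
  · have h2 : pat y ω ∉ A := by rw [← h]; exact h1
    rw [Set.indicator_of_notMem (show ω ∉ {ω | pat x ω ∈ A} from h1),
      Set.indicator_of_notMem (show ω ∉ {ω | pat y ω ∈ A} from h2)]

theorem prob_01 (A : Set (Finset (Fin (n + 1) × Fin (n + 1)))) (x : Fin n → ℤ) :
    0 ≤ prob x A ∧ prob x A ≤ 1 := ⟨measureReal_nonneg, measureReal_le_one⟩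

/-- First differences. -/
theorem diff1 {m r : ℕ} {x : Fin n → ℤ} (hx : Apart m x) (hr : r < m) (i : Fin n)
    (A : Set (Finset (Fin (n + 1) × Fin (n + 1)))) :
    |prob (move x i) A - prob x A| ≤ mu.real (G (x i) r) := by
  have h := int_le (f := fun ω => phi A (move x i) ω - phi A x ω)
    ((phi_meas A _).sub (phi_meas A _)) (meas_G (x i) r) (c := 1) (by
      intro ω
      have h1 := phi_01 A (move x i) ω
      have h2 := phi_01 A x ω
      rw [abs_le]; constructor <;> linarith [h1.1, h1.2, h2.1, h2.2]) (by
      intro ω hω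
      have : pat (move x i) ω = pat x ω := by
        by_contra hc
        exact hω (change hx hr hc)
      rw [phi_congr A this, sub_self])
  rw [integral_sub (phi_integrable A _) (phi_integrable A _), phi_int, phi_int, one_mul] at h
  exact h

/-- Mixed second differences. -/
theorem diff2 {m r : ℕ} {x : Fin n → ℤ} (hx : Apart (m + 1) x) (hr : r < m) {i j : Fin n}
    (hij : i ≠ j) (A : Set (Finset (Fin (n + 1) × Fin (n + 1)))) :
    |prob (move (move x i) j) A - prob (move x i) A - prob (move x j) A + prob x A| ≤
      2 * mu.real (G (x i) r ∩ G (x j) r) := by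
  have hx' : Apart m x := hx.anti (by omega)
  have h := int_le
    (f := fun ω => (phi A (move (move x i) j) ω - phi A (move x i) ω) -
      (phi A (move x j) ω - phi A x ω))
    (((phi_meas A _).sub (phi_meas A _)).sub ((phi_meas A _).sub (phi_meas A _)))
    ((meas_G (x i) r).inter (meas_G (x j) r)) (c := 2) (by
      intro ω
      have h1 := phi_01 A (move (move x i) j) ω
      have h2 := phi_01 A (move x i) ω
      have h3 := phi_01 A (move x j) ω
      have h4 := phi_01 A x ω
      rw [abs_le]; constructor <;> linarith [h1.1, h1.2, h2.1, h2.2, h3.1, h3.2, h4.1, h4.2]) (by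
      intro ω hω
      by_cases h1 : ω ∈ G (x j) r
      · have h2 : ω ∉ G (x i) r := fun h2 => hω ⟨h2, h1⟩
        have e1 : pat (move x i) ω = pat x ω := by
          by_contra hc
          exact h2 (change hx' hr hc)
        have e2 : pat (move (move x i) j) ω = pat (move x j) ω := by
          rw [move_comm]
          by_contra hc
          have := change (hx.move j) hr hc
          rw [move_ne x hij] at this
          exact h2 this
        rw [phi_congr A e1, phi_congr A e2]
        ring
      · have e1 : pat (move x j) ω = pat x ω := by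
          by_contra hc
          exact h1 (change hx' hr hc)
        have e2 : pat (move (move x i) j) ω = pat (move x i) ω := by
          by_contra hc
          have := change (hx.move i) hr hc
          rw [move_ne x hij.symm] at this
          exact h1 this
        rw [phi_congr A e1, phi_congr A e2]
        ring)
  have i0 : ∀ a b : Fin n → ℤ, Integrable (fun ω => phi A a ω - phi A b ω) mu :=
    fun a b => (phi_integrable A a).sub (phi_integrable A b)
  rw [integral_sub (i0 _ _) (i0 _ _),
    integral_sub (phi_integrable A _) (phi_integrable A _),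
    integral_sub (phi_integrable A _) (phi_integrable A _), phi_int, phi_int, phi_int, phi_int] at h
  have e : prob (move (move x i) j) A - prob (move x i) A - prob (move x j) A + prob x A =
      prob (move (move x i) j) A - prob (move x i) A - (prob (move x j) A - prob x A) := by ring
  rw [e]
  exact h

/-- First and mixed second differences, final form. -/
theorem diffs : ∃ K : ℝ, 1 ≤ K ∧ ∀ (n : ℕ) (A : Set (Finset (Fin (n + 1) × Fin (n + 1)))) (m : ℕ)
    (x : Fin n → ℤ), 1 ≤ m → Apart m x →
      (∀ i, |prob (move x i) A - prob x A| ≤ K / m) ∧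
      ∀ i j, i ≠ j → |prob (move (move x i) j) A - prob (move x i) A - prob (move x j) A +
        prob x A| ≤ K / (m:ℝ) ^ 2 := by
  obtain ⟨C, hC, h1, h2⟩ := G_pr
  refine ⟨50 * C ^ 2 + 50, by nlinarith, ?_⟩
  intro n A m x hm hx
  have hm0 : (0:ℝ) < m := by exact_mod_cast hm
  have hC0 : 0 < C := by linarith
  by_cases h4 : m < 4
  · have hm4 : (m:ℝ) ≤ 4 := by exact_mod_cast h4.le
    constructor
    · intro i
      have p1 := prob_01 A (move x i)
      have p2 := prob_01 A x
      have : |prob (move x i) A - prob x A| ≤ 1 := by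
        rw [abs_le]; constructor <;> linarith [p1.1, p1.2, p2.1, p2.2]
      refine this.trans ?_
      rw [le_div_iff₀ hm0]
      nlinarith
    · intro i j _
      have p1 := prob_01 A (move (move x i) j)
      have p2 := prob_01 A (move x i)
      have p3 := prob_01 A (move x j)
      have p4 := prob_01 A x
      have : |prob (move (move x i) j) A - prob (move x i) A - prob (move x j) A + prob x A| ≤
          2 := by
        rw [abs_le]
        constructor <;> linarith [p1.1, p1.2, p2.1, p2.2, p3.1, p3.2, p4.1, p4.2]
      refine this.trans ?_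
      rw [le_div_iff₀ (by positivity)]
      nlinarith
  · obtain ⟨r, hr⟩ : ∃ r : ℕ, r = (m - 2) / 2 := ⟨_, rfl⟩
    have hr1 : 1 ≤ r := by omega
    have hr2 : 2 * r + 2 ≤ m := by omega
    have hr5 : m ≤ 5 * r := by omega
    have hr0 : (0:ℝ) < r := by exact_mod_cast hr1
    have hr5' : (m:ℝ) ≤ 5 * r := by exact_mod_cast hr5
    have key : C / r ≤ 5 * C / m := by
      rw [div_le_div_iff₀ hr0 hm0]
      nlinarith
    have hpos : 0 < C / r := by positivity
    constructor
    · intro i
      refine (diff1 hx (show r < m by omega) i A).trans ((h1 (x i) r hr1).trans (key.trans ?_))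
      apply div_le_div_of_nonneg_right _ hm0.le
      nlinarith
    · intro i j hij
      have e1 : m - 1 + 1 = m := by omega
      have hx' : Apart (m - 1 + 1) x := by rw [e1]; exact hx
      refine (diff2 hx' (show r < m - 1 by omega) hij A).trans ?_
      have hG : mu.real (G (x i) r ∩ G (x j) r) ≤ (C / r) ^ 2 := by
        rcases lt_or_gt_of_ne hij with h | h
        · have := hx i j h
          exact h2 (x i) (x j) r hr1 (by omega)
        · have := hx j i h
          rw [Set.inter_comm]
          exact h2 (x j) (x i) r hr1 (by omega)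
      have h3 : (C / r) ^ 2 ≤ (5 * C / m) ^ 2 := pow_le_pow_left₀ hpos.le key 2
      have h5 : 2 * (5 * C / m) ^ 2 = 50 * C ^ 2 / (m:ℝ) ^ 2 := by
        field_simp
        norm_num
      have h6 : 50 * C ^ 2 / (m:ℝ) ^ 2 ≤ (50 * C ^ 2 + 50) / (m:ℝ) ^ 2 :=
        div_le_div_of_nonneg_right (by linarith) (by positivity)
      linarith

/-- Some marks are moved by one. -/
def sm (x : Fin n → ℤ) (S : Finset (Fin n)) : Fin n → ℤ := fun j => if j ∈ S then x j + 1 else x j

theorem sm_insert (x : Fin n → ℤ) {S : Finset (Fin n)} {j : Fin n} (hj : j ∉ S) :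
    sm x (insert j S) = move (sm x S) j := by
  ext k
  by_cases h : k = j
  · subst h
    rw [move_self]
    simp [sm, hj]
  · rw [move_ne _ h]
    simp [sm, h]

theorem sm_single (x : Fin n → ℤ) (i : Fin n) : sm x {i} = move x i := by
  ext k
  by_cases h : k = i
  · subst h; rw [move_self]; simp [sm]
  · rw [move_ne _ h]; simp [sm, h]

theorem sm_univ (x : Fin n → ℤ) : sm x Finset.univ = fun j => x j + 1 := by
  ext k; simp [sm]

theorem sm_apart {m : ℕ} {x : Fin n → ℤ} (h : Apart (m + 1) x) (S : Finset (Fin n)) :
    Apart m (sm x S) := by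
  intro j k hjk
  have h1 := h j k hjk
  push_cast at h1
  unfold sm
  split_ifs <;> omega

/-- All second differences. -/
theorem diffs2 : ∃ K : ℝ, 1 ≤ K ∧ ∀ (n : ℕ) (A : Set (Finset (Fin (n + 1) × Fin (n + 1)))) (m : ℕ)
    (x : Fin n → ℤ), 1 ≤ m → Apart m x →
      (∀ i, |prob (move x i) A - prob x A| ≤ K / m) ∧
      (∀ i j, i ≠ j → |prob (move (move x i) j) A - prob (move x i) A - prob (move x j) A +
        prob x A| ≤ K / (m:ℝ) ^ 2) ∧
      ∀ i, |prob (move (move x i) i) A - prob (move x i) A - prob (move x i) A +
        prob x A| ≤ n * K / (m:ℝ) ^ 2 := by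
  obtain ⟨K, hK, h⟩ := diffs
  refine ⟨4 * K + 2, by linarith, ?_⟩
  intro n A m x hm hx
  have hm0 : (0:ℝ) < m := by exact_mod_cast hm
  obtain ⟨h1, h2⟩ := h n A m x hm hx
  refine ⟨fun i => (h1 i).trans (div_le_div_of_nonneg_right (by linarith) hm0.le),
    fun i j hij => (h2 i j hij).trans (div_le_div_of_nonneg_right (by linarith) (by positivity)), ?_⟩
  intro i
  have hn : (1:ℝ) ≤ n := by
    have : 1 ≤ n := by have := i.isLt; omega
    exact_mod_cast this
  by_cases hm1 : m = 1
  · have p1 := prob_01 A (move (move x i) i)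
    have p2 := prob_01 A (move x i)
    have p4 := prob_01 A x
    have : |prob (move (move x i) i) A - prob (move x i) A - prob (move x i) A + prob x A| ≤
        2 := by
      rw [abs_le]
      constructor <;> linarith [p1.1, p1.2, p2.1, p2.2, p4.1, p4.2]
    refine this.trans ?_
    rw [hm1]
    push_cast
    rw [one_pow, div_one]
    nlinarith
  · obtain ⟨k, hk⟩ : ∃ k, m = k + 1 := ⟨m - 1, by omega⟩
    have hk1 : 1 ≤ k := by omega
    have hk0 : (0:ℝ) < k := by exact_mod_cast hk1
    set Q : (Fin n → ℤ) → ℝ := fun y => prob (move y i) A - prob y A with hQ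
    have hQt : Q (fun j => x j + 1) = Q x := by
      rw [hQ]
      simp only
      have e : move (fun j => x j + 1) i = fun j => move x i j + 1 := by
        ext j
        by_cases hj : j = i
        · subst hj; rw [move_self, move_self]
        · rw [move_ne _ hj, move_ne _ hj]
      rw [e, prob_add, prob_add]
    have hstep : ∀ S : Finset (Fin n), i ∉ S →
        |Q (sm x (insert i S)) - Q (sm x {i})| ≤ S.card * (K / (k:ℝ) ^ 2) := by
      intro S
      induction S using Finset.induction_on with
      | empty => intro _; simp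
      | insert j S hjS ih =>
        intro hi
        have hi' : i ∉ S := fun h => hi (Finset.mem_insert_of_mem h)
        have hji : j ≠ i := fun h => hi (h ▸ Finset.mem_insert_self _ _)
        have hj2 : j ∉ insert i S := by
          rw [Finset.mem_insert]; push Not; exact ⟨hji, hjS⟩
        have e1 : insert i (insert j S) = insert j (insert i S) := Finset.insert_comm _ _ _
        rw [e1, sm_insert x hj2, Finset.card_insert_of_notMem hjS]
        have h3 := (h n A k (sm x (insert i S)) hk1 (sm_apart (by rw [← hk]; exact hx) _)).2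
          i j hji.symm
        have h4 : Q (move (sm x (insert i S)) j) - Q (sm x (insert i S)) =
            prob (move (move (sm x (insert i S)) i) j) A - prob (move (sm x (insert i S)) i) A -
              prob (move (sm x (insert i S)) j) A + prob (sm x (insert i S)) A := by
          rw [hQ]
          simp only
          rw [move_comm _ j i]
          ring
        rw [← h4] at h3
        have h5 := ih hi'
        have h6 : |Q (move (sm x (insert i S)) j) - Q (sm x {i})| ≤
            |Q (move (sm x (insert i S)) j) - Q (sm x (insert i S))| +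
              |Q (sm x (insert i S)) - Q (sm x {i})| := abs_sub_le _ _ _
        push_cast
        linarith
    have h7 := hstep (Finset.univ.erase i) (Finset.notMem_erase _ _)
    rw [Finset.insert_erase (Finset.mem_univ i), sm_univ, sm_single, hQt,
      Finset.card_erase_of_mem (Finset.mem_univ i), Finset.card_univ, Fintype.card_fin] at h7
    have e2 : prob (move (move x i) i) A - prob (move x i) A - prob (move x i) A + prob x A =
        -(Q x - Q (move x i)) := by
      rw [hQ]; ring
    rw [e2, abs_neg]
    refine h7.trans ?_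
    have h8 : ((n - 1 : ℕ) : ℝ) ≤ n := by exact_mod_cast Nat.sub_le _ _
    have h9 : K / (k:ℝ) ^ 2 ≤ (4 * K + 2) / (m:ℝ) ^ 2 := by
      rw [div_le_div_iff₀ (by positivity) (by positivity)]
      have : (m:ℝ) ≤ 2 * k := by
        have : m ≤ 2 * k := by omega
        exact_mod_cast this
      have h10 : (m:ℝ) ^ 2 ≤ (2 * k) ^ 2 := pow_le_pow_left₀ hm0.le this 2
      nlinarith [sq_nonneg (k:ℝ)]
    have h11 : 0 ≤ K / (k:ℝ) ^ 2 := by positivity
    calc ((n - 1 : ℕ) : ℝ) * (K / (k:ℝ) ^ 2) ≤ n * ((4 * K + 2) / (m:ℝ) ^ 2) :=
          mul_le_mul h8 h9 h11 (by positivity)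
      _ = n * (4 * K + 2) / (m:ℝ) ^ 2 := by ring

end Pool.Agent.Run7.h733.CP
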