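import Pool.Agent.Run7.h733.CP.Limit

/-!
Differentiability of the limits, compactness, slow variation.
-/

set_option maxHeartbeats 1000000

namespace Pool.Agent.Run7.h733.CP

open Finset Filter Topology

variable {n : ℕ}

theorem hasFDeriv_of_quad {f : (Fin n → ℝ) → ℝ} {u : Fin n → ℝ} {D : Fin n → ℝ} {c r : ℝ}
    (hr : 0 < r)
    (h : ∀ v : Fin n → ℝ, ‖v - u‖ ≤ r →
      |f v - f u - ∑ i, (v i - u i) * D i| ≤ c * ‖v - u‖ ^ 2) :
    HasFDerivAt f (∑ i, D i • (ContinuousLinearMap.proj (R := ℝ) (φ := fun _ : Fin n => ℝ) i)) u := by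
  rw [hasFDerivAt_iff_isLittleO_nhds_zero]
  have h1 : (fun w : Fin n → ℝ => f (u + w) - f u -
      (∑ i, D i • (ContinuousLinearMap.proj (R := ℝ) (φ := fun _ : Fin n => ℝ) i)) w) =O[𝓝 0]
      (fun w => ‖w‖ ^ 2) := by
    apply Asymptotics.IsBigO.of_bound c
    have : ∀ᶠ w : Fin n → ℝ in 𝓝 0, ‖w‖ < r := by
      have := Metric.ball_mem_nhds (0 : Fin n → ℝ) hr
      filter_upwards [this] with w hw
      simpa using hw
    filter_upwards [this] with w hw
    have h2 := h (u + w) (by simpa using hw.le)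
    have h3 : (∑ i, D i • (ContinuousLinearMap.proj (R := ℝ) (φ := fun _ : Fin n => ℝ) i)) w =
        ∑ i, ((u + w) i - u i) * D i := by
      rw [_root_.sum_apply]
      apply Finset.sum_congr rfl
      intro i _
      simp [mul_comm]
    rw [h3, Real.norm_eq_abs, norm_pow, norm_norm]
    simpa using h2
  exact h1.trans_isLittleO (Asymptotics.isLittleO_norm_pow_id one_lt_two)

theorem norm_le_all {v u : Fin n → ℝ} : ∀ i, |v i - u i| ≤ ‖v - u‖ := by
  intro i
  have := norm_le_pi_norm (v - u) i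
  simpa [Real.norm_eq_abs] using this

/-- Rational approximation. -/
theorem exists_rat (u : Fin n → ℝ) {ρ : ℝ} (hρ : 0 < ρ) :
    ∃ q : Fin n → ℚ, ∀ i, |u i - (q i : ℝ)| ≤ ρ := by
  have : ∀ i, ∃ q : ℚ, |u i - (q : ℝ)| ≤ ρ := by
    intro i
    obtain ⟨q, h1, h2⟩ := exists_rat_btwn (show u i - ρ < u i by linarith)
    refine ⟨q, ?_⟩
    rw [abs_le]
    constructor <;> linarith
  choose q hq using this
  exact ⟨q, hq⟩

/-- Convergence at the rational points implies convergence everywhere. -/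
theorem conv_all {K L : ℝ} {P : (Fin n → ℤ) → ℝ} (h : Reg K L P) {N : ℕ → ℕ}
    (hN : Tendsto N atTop atTop)
    (hq : ∀ q : Fin n → ℚ, ∃ l, Tendsto (fun k => P (lat (N k) (fun i => (q i : ℝ)))) atTop (𝓝 l))
    {u : Fin n → ℝ} (hu : StrictMono u) : ∃ l, Tendsto (fun k => P (lat (N k) u)) atTop (𝓝 l) := by
  obtain ⟨g, hg, hgu⟩ := exists_gap hu
  apply cauchySeq_tendsto_of_complete
  rw [Metric.cauchySeq_iff]
  intro ε hε
  obtain ⟨c, hc⟩ : ∃ c : ℝ, c = 8 * K * n / g := ⟨_, rfl⟩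
  have hK := h.hK
  have hc0 : 0 ≤ c := by rw [hc]; positivity
  obtain ⟨ρ, hρ⟩ : ∃ ρ : ℝ, ρ = min (g / 32) (ε / (8 * (c + 1))) := ⟨_, rfl⟩
  have hρ0 : 0 < ρ := by rw [hρ]; positivity
  have hρ1 : ρ ≤ g / 32 := by rw [hρ]; exact min_le_left _ _
  have hρ2 : c * ρ ≤ ε / 8 := by
    have h1 : ρ ≤ ε / (8 * (c + 1)) := by rw [hρ]; exact min_le_right _ _
    rw [le_div_iff₀ (by positivity)] at h1
    nlinarith
  obtain ⟨q, hqu⟩ := exists_rat u hρ0
  have hqu' : ∀ i, |(q i : ℝ) - u i| ≤ ρ := fun i => by rw [abs_sub_comm]; exact hqu i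
  obtain ⟨l, hl⟩ := hq q
  have e1 := ev_large hN hg 100
  have e2 : ∀ᶠ k in atTop, c * (ρ + ((N k : ℕ) : ℝ)⁻¹) < c * ρ + ε / 8 :=
    (err_lim1 hN c ρ).eventually_lt_const (by linarith)
  have e3 := hl.cauchySeq
  rw [Metric.cauchySeq_iff] at e3
  obtain ⟨k3, e3⟩ := e3 (ε / 4) (by positivity)
  obtain ⟨k1, hk1⟩ := eventually_atTop.mp (e1.and e2)
  refine ⟨max k1 k3, ?_⟩
  intro a ha b hb
  have key : ∀ k, k1 ≤ k → |P (lat (N k) (fun i => (q i : ℝ))) - P (lat (N k) u)| ≤ ε / 4 := by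
    intro k hk
    obtain ⟨q1, q2⟩ := hk1 k hk
    obtain ⟨q3, -, -, -⟩ := core h hg hgu hρ0.le hρ1 hqu' q1
    have hNpos : (0:ℝ) < N k := by
      by_contra hcc
      have : ((N k : ℕ) : ℝ) = 0 := le_antisymm (not_lt.mp hcc) (Nat.cast_nonneg _)
      rw [this] at q1
      linarith
    have q4 : 8 * K / (((N k : ℕ) : ℝ) * g) * (n * (((N k : ℕ) : ℝ) * ρ + 1)) =
        c * (ρ + ((N k : ℕ) : ℝ)⁻¹) := by
      rw [hc]; field_simp
    rw [q4] at q3
    linarith
  have r1 := abs_le.mp (key a ((le_max_left _ _).trans ha))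
  have r2 := abs_le.mp (key b ((le_max_left _ _).trans hb))
  have r3 := e3 a ((le_max_right _ _).trans ha) b ((le_max_right _ _).trans hb)
  rw [Real.dist_eq, abs_lt] at r3
  rw [Real.dist_eq, abs_lt]
  constructor <;> linarith [r1.1, r1.2, r2.1, r2.2, r3.1, r3.2]

/-- A countable family. -/
theorem compact_all {T : Type} [Countable T] {nn : T → ℕ} {P : ∀ t, (Fin (nn t) → ℤ) → ℝ}
    {K L : T → ℝ} (h : ∀ t, Reg (K t) (L t) (P t)) {N : ℕ → ℕ} (hN : Tendsto N atTop atTop) :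
    ∃ φ : ℕ → ℕ, StrictMono φ ∧ ∀ t, ∀ u : Fin (nn t) → ℝ, StrictMono u →
      ∃ l, Tendsto (fun k => P t (lat (N (φ k)) u)) atTop (𝓝 l) := by
  let s : ℕ → ((Σ t : T, (Fin (nn t) → ℚ)) → ℝ) :=
    fun k p => P p.1 (lat (N k) (fun i => ((p.2 i : ℚ) : ℝ)))
  have hc : IsCompact (Set.pi Set.univ fun _ : (Σ t : T, (Fin (nn t) → ℚ)) =>
      Set.Icc (-1:ℝ) 1) := isCompact_univ_pi fun _ => isCompact_Icc
  obtain ⟨l, -, φ, hφ, hl⟩ := hc.tendsto_subseq (x := s) (by
    intro k p _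
    exact abs_le.mp ((h p.1).b0 _))
  refine ⟨φ, hφ, ?_⟩
  intro t u hu
  apply conv_all (h t) (N := fun k => N (φ k)) (hN.comp hφ.tendsto_atTop) _ hu
  intro q
  exact ⟨l ⟨t, q⟩, (tendsto_pi_nhds.mp hl) ⟨t, q⟩⟩

/-- Slow variation in the scale. -/
theorem slow {K L : ℝ} {P : (Fin n → ℤ) → ℝ} (h : Reg K L P) {u : Fin n → ℝ}
    (hu : StrictMono u) : Tendsto (fun N : ℕ => P (lat (N + 1) u) - P (lat N u)) atTop (𝓝 0) := by
  obtain ⟨g, hg, hgu⟩ := exists_gap hu
  have hK := h.hK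
  obtain ⟨k, hk⟩ : ∃ k : ℕ, k = ⌈‖u‖⌉₊ + 2 := ⟨_, rfl⟩
  have hku : ‖u‖ + 1 ≤ k := by
    rw [hk]; push_cast
    have := Nat.le_ceil ‖u‖
    linarith
  have hlim : Tendsto (fun N : ℕ => (8 * K / g * (n * k)) * ((N : ℕ) : ℝ)⁻¹) atTop (𝓝 0) := by
    have := (tendsto_inv_atTop_zero.comp tendsto_natCast_atTop_atTop).const_mul
      (8 * K / g * ((n:ℝ) * k))
    simpa using this
  apply squeeze_zero_norm' _ hlim
  have e1 := ev_large (N := fun k => k) tendsto_id hg (100 + 4 * k)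
  filter_upwards [e1] with N hN
  have hk0 : (0:ℝ) ≤ k := Nat.cast_nonneg k
  obtain ⟨m, hm⟩ : ∃ m : ℕ, m = ⌊(N:ℝ) * g / 4⌋₊ := ⟨_, rfl⟩
  have hNg : 0 < (N:ℝ) * g := by linarith
  have hNpos : (0:ℝ) < N := by
    by_contra hc
    have : ((N : ℕ) : ℝ) = 0 := le_antisymm (not_lt.mp hc) (Nat.cast_nonneg _)
    rw [this] at hN
    linarith
  have hm1 : (m:ℝ) ≤ N * g / 4 := by
    rw [hm]; exact Nat.floor_le (by positivity)
  have hm2 : (N:ℝ) * g / 8 ≤ m := by
    rw [hm]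
    have := Nat.lt_floor_add_one ((N:ℝ) * g / 4)
    linarith
  have hm0 : 1 ≤ m := by
    have : (0:ℝ) < m := by linarith
    exact_mod_cast this
  have hmp : (0:ℝ) < m := by exact_mod_cast hm0
  have hx : Apart (m + 2 * k) (lat N u) := by
    apply lat_apart hgu
    push_cast
    linarith
  have hdiff : ∀ i, |((lat (N + 1) u i - lat N u i : ℤ) : ℝ)| ≤ k := by
    intro i
    have h1 := floor_diff (((N + 1 : ℕ):ℝ) * u i) (N * u i)
    have h2 : |u i| ≤ ‖u‖ := by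
      have := norm_le_pi_norm u i
      rwa [Real.norm_eq_abs] at this
    have h3 : ((N + 1 : ℕ):ℝ) * u i - N * u i = u i := by push_cast; ring
    rw [h3] at h1
    have h4 := abs_sub_abs_le_abs_sub ((lat (N + 1) u i - lat N u i : ℤ) : ℝ) (u i)
    have h5 : |((lat (N + 1) u i - lat N u i : ℤ) : ℝ) - u i| ≤ 1 := h1
    linarith
  have hy : ∀ i, |lat (N + 1) u i - lat N u i| ≤ (k:ℤ) := by
    intro i
    have h1 := hdiff i
    rw [← Int.cast_abs] at h1
    exact_mod_cast h1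
  have hdst : (dst (lat (N + 1) u) (lat N u) : ℝ) ≤ n * k := by
    unfold dst
    push_cast
    have h1 : ∀ i ∈ (Finset.univ : Finset (Fin n)),
        (((lat (N + 1) u i - lat N u i).natAbs : ℕ) : ℝ) ≤ k := by
      intro i _
      rw [Nat.cast_natAbs, Int.cast_abs]
      exact hdiff i
    have h2 := Finset.sum_le_card_nsmul _ _ _ h1
    rw [Finset.card_univ, Fintype.card_fin, nsmul_eq_mul] at h2
    exact h2
  have c1 : K / m ≤ 8 * K / (N * g) := by
    rw [div_le_div_iff₀ hmp hNg]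
    nlinarith
  rw [Real.norm_eq_abs]
  refine (h.lip hm0 hx hy).trans ?_
  refine (mul_le_mul c1 hdst (Nat.cast_nonneg _) (by positivity)).trans (le_of_eq ?_)
  field_simp

/-- The limit points of a slowly varying sequence form an interval. -/
theorem cluster_interval {a : ℕ → ℝ} (h : Tendsto (fun N => a (N + 1) - a N) atTop (𝓝 0))
    {p q c : ℝ} (hp : MapClusterPt p atTop a) (hq : MapClusterPt q atTop a) (h1 : p ≤ c)
    (h2 : c ≤ q) : MapClusterPt c atTop a := by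
  rcases eq_or_lt_of_le h1 with rfl | h1
  · exact hp
  rcases eq_or_lt_of_le h2 with rfl | h2
  · exact hq
  rw [mapClusterPt_iff_frequently]
  by_contra hc
  push Not at hc
  obtain ⟨s, hs, hfr⟩ := hc
  obtain ⟨ε, hε, hball⟩ := Metric.mem_nhds_iff.mp hs
  obtain ⟨N0, hN0⟩ := eventually_atTop.mp (hfr.and ((Metric.tendsto_nhds.mp h) ε hε))
  have hout : ∀ N, N0 ≤ N → ε ≤ |a N - c| := by
    intro N hN
    by_contra hlt
    apply (hN0 N hN).1
    apply hball
    rw [Metric.mem_ball, Real.dist_eq]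
    linarith
  have hstep : ∀ N, N0 ≤ N → |a (N + 1) - a N| < ε := by
    intro N hN
    have := (hN0 N hN).2
    rwa [Real.dist_eq, sub_zero] at this
  rw [mapClusterPt_iff_frequently] at hp hq
  have hp1 := hp (Set.Iio c) (Iio_mem_nhds h1)
  have hq1 := hq (Set.Ioi c) (Ioi_mem_nhds h2)
  obtain ⟨N1, hN1, hN1c⟩ := (Filter.frequently_atTop.mp hp1) N0
  have hstay : ∀ N, N1 ≤ N → a N < c := by
    intro N hN
    induction N, hN using Nat.le_induction with
    | base => exact hN1c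
    | succ N hN ih =>
      have k1 := hout N (hN1.trans hN)
      have k2 := hout (N + 1) ((hN1.trans hN).trans (Nat.le_succ N))
      have k3 := abs_lt.mp (hstep N (hN1.trans hN))
      rw [abs_of_neg (by linarith)] at k1
      by_contra hcc
      rw [abs_of_nonneg (by linarith)] at k2
      linarith [k3.1, k3.2]
  obtain ⟨N2, hN2, hN2c⟩ := (Filter.frequently_atTop.mp hq1) N1
  have := hstay N2 hN2
  have h3 : c < a N2 := hN2c
  linarith

end Pool.Agent.Run7.h733.CP
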