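import Pool.Agent.H973R3.H3.Final
import Pool.Agent.H12R2.Sep.Win1
import Pool.Agent.H12R2.Sep.WinHalf

/-!
One-sided two-arm event at a boundary vertex of the half-plane: the vertex is joined to distance `r`
but to no other boundary vertex on one of its sides within distance `r`. Its probability is at most
`C / r`.
-/

set_option maxHeartbeats 1000000

namespace Pool.Agent.Run7.h733.CP

open H974 H973S H12S Finset

/-- The one-sided two-arm event at `(w, 0)`. -/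
def T (s w : ℤ) (r : ℕ) (F : Set Edg) : Prop :=
  (∃ u ∈ rimU w 0 r, Reach (F ∩ ↑(hbU w 0 r)) (w, 0) u) ∧
  ∀ j : ℕ, 1 ≤ j → j ≤ r → ¬ Reach (F ∩ ↑(hbU w 0 r)) (w, 0) (w + s * j, 0)

theorem T_inter {s w : ℤ} {r : ℕ} {F : Finset Edg} {S : Finset Edg} (hS : hbU w 0 r ⊆ S) :
    T s w r (↑(F ∩ S) : Set Edg) ↔ T s w r (↑F : Set Edg) := by
  have h : (↑(F ∩ S) : Set Edg) ∩ ↑(hbU w 0 r) = ↑F ∩ ↑(hbU w 0 r) := by
    rw [coe_inter', Set.inter_assoc]
    congr 1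
    exact Set.inter_eq_right.mpr (by exact_mod_cast hS)
  unfold T
  rw [h]

theorem T_local {q : ℝ} {s w : ℤ} {r : ℕ} {S : Finset Edg} (hS : hbU w 0 r ⊆ S) :
    PQ q S (fun F => T s w r ↑F) = PQ q (hbU w 0 r) (fun F => T s w r ↑F) := by
  apply Pr_local hS
  intro F _
  exact (T_inter (Finset.Subset.refl _)).symm

theorem T_shift {s w t : ℤ} {r : ℕ} {F : Finset Edg} (h : T s w r (↑F : Set Edg)) :
    T s (w + t) r (↑((trl t 0).mp F) : Set Edg) := by
  have hset : (↑((trl t 0).mp F) : Set Edg) ∩ ↑(hbU (w + t) 0 r) =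
      (trl t 0).φ '' (↑F ∩ ↑(hbU w 0 r)) := by
    have h1 : hbU (w + t) 0 r = (trl t 0).mp (hbU w 0 r) := by
      unfold hbU
      rw [trl_RE]
      congr 1 <;> ring
    rw [h1, LSym.coe_mp, LSym.coe_mp, Set.image_inter (trl t 0).φ.injective]
  have e0 : ((w + t, 0) : Vtx) = (trl t 0).ψ (w, 0) := by
    show ((w + t, 0) : Vtx) = (w + t, 0 + 0)
    simp
  obtain ⟨⟨b, hb, h1⟩, h2⟩ := h
  unfold T
  rw [hset, e0]
  refine ⟨⟨(trl t 0).ψ b, ?_, (trl t 0).reach h1⟩, ?_⟩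
  · obtain ⟨⟨⟨k1, k2⟩, k3, k4⟩, k5⟩ := hb
    refine ⟨⟨⟨?_, ?_⟩, ?_, ?_⟩, ?_⟩
    · show w + t - r ≤ b.1 + t; omega
    · show b.1 + t ≤ w + t + r; omega
    · show 0 ≤ b.2 + 0; omega
    · show b.2 + 0 ≤ 0 + r; omega
    · show b.1 + t = w + t - r ∨ b.1 + t = w + t + r ∨ b.2 + 0 = 0 + r; omega
  · intro j j1 j2 h3
    apply h2 j j1 j2
    have e1 : ((w + t + s * j, 0) : Vtx) = (trl t 0).ψ (w + s * j, 0) := by
      show ((w + t + s * j, 0) : Vtx) = (w + s * j + t, 0 + 0)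
      simp; ring
    rw [e1] at h3
    exact (trl t 0).reach_iff.mp h3

theorem T_move {q : ℝ} (h0 : 0 ≤ q) (h1 : q ≤ 1) (s w t : ℤ) (r : ℕ) :
    PQ q (hbU w 0 r) (fun F => T s w r ↑F) ≤ PQ q (hbU (w + t) 0 r) (fun F => T s (w + t) r ↑F) := by
  have h2 : hbU (w + t) 0 r = (trl t 0).mp (hbU w 0 r) := by
    unfold hbU
    rw [trl_RE]
    congr 1 <;> ring
  rw [h2]
  unfold PQ
  rw [(trl t 0).pr]
  exact Pr_mono (okq h0 h1) (fun F _ hF => T_shift hF)

/-- The number of vertices at which the event occurs is at most the number of crossing clusters. -/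
theorem count_T {s : ℤ} (hs : s = 1 ∨ s = -1) {M r : ℕ} (hM : 1 ≤ M) (hr : 4 * M ≤ r)
    (F : Finset Edg) :
    ∑ w ∈ Finset.Icc (-(M:ℤ)) M, ind (T s w r (↑F : Set Edg)) ≤
      (NC src tgt ((Finset.Icc (-(M:ℤ)) M) ×ˢ {0}) (Tg 0 0 M) (↑(F ∩ Om 0 0 M) : Set Edg) : ℝ) := by
  classical
  have h1 : ∑ w ∈ Finset.Icc (-(M:ℤ)) M, ind (T s w r (↑F : Set Edg)) =
      (((Finset.Icc (-(M:ℤ)) M).filter (fun w => T s w r (↑F : Set Edg))).card : ℝ) := by
    rw [Finset.card_filter]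
    push_cast
    apply Finset.sum_congr rfl
    intro k _
    unfold ind
    split_ifs <;> rfl
  rw [h1]
  unfold NC
  norm_cast
  have hcl : ∀ w : ℤ, clu src tgt (↑(F ∩ Om 0 0 M) : Set Edg) (w, 0) =
      {v | Reach (↑(F ∩ Om 0 0 M) : Set Edg) (w, 0) v} := fun w => rfl
  -- different vertices are in different clusters
  have key : ∀ w ∈ Finset.Icc (-(M:ℤ)) M, ∀ w' ∈ Finset.Icc (-(M:ℤ)) M, T s w r (↑F : Set Edg) →
      0 < s * (w' - w) → ¬ Reach (↑(F ∩ Om 0 0 M) : Set Edg) (w, 0) (w', 0) := by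
    intro w hw w' hw' hT hlt hR
    rw [Finset.mem_Icc] at hw hw'
    have e1 : (w + s * ((s * (w' - w)).toNat : ℤ)) = w' := by
      rw [Int.toNat_of_nonneg hlt.le]
      rcases hs with rfl | rfl <;> ring
    refine hT.2 (s * (w' - w)).toNat ?_ ?_ ?_
    · omega
    · rcases hs with rfl | rfl <;> omega
    · rw [e1]
      have hsub : Om 0 0 M ⊆ hbU w 0 r := by
        unfold Om hbU
        exact RE_subset (by omega) (by omega) le_rfl (by omega)
      apply hR.mono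
      rw [coe_inter']
      apply Set.inter_subset_inter_right
      exact_mod_cast hsub
  apply Finset.card_le_card_of_injOn
    (fun w : ℤ => clu src tgt (↑(F ∩ Om 0 0 M) : Set Edg) (w, 0))
  · intro w hw
    rw [Finset.mem_coe, Finset.mem_filter] at hw
    rw [Finset.mem_coe, mem_TC]
    refine ⟨(w, 0), ?_, ?_, rfl⟩
    · rw [Finset.mem_product, Finset.mem_singleton]
      exact ⟨hw.1, rfl⟩
    · obtain ⟨hw1, ⟨b, hb, hR⟩, -⟩ := hw
      rw [Finset.mem_Icc] at hw1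
      obtain ⟨u, hu, hRu⟩ := reach_small (c := w) (x0 := 0) (y0 := 0) (m := M) (ρ := r) hM
        (by rw [abs_le]; omega) hr (v := (w, 0)) rfl (by rw [abs_le]; simp only; omega) hb hR
      refine ⟨u, hu, ?_⟩
      rw [coe_inter']
      exact hRu
  · intro w hw w' hw' heq
    rw [Finset.mem_coe, Finset.mem_filter] at hw hw'
    simp only at heq
    have hin : ((w', 0) : Vtx) ∈ clu src tgt (↑(F ∩ Om 0 0 M) : Set Edg) (w, 0) := by
      rw [heq]; exact GR.refl _ _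
    have hR : Reach (↑(F ∩ Om 0 0 M) : Set Edg) (w, 0) (w', 0) := hin
    by_contra hne
    rcases lt_or_gt_of_ne (show s * (w' - w) ≠ 0 by
      rcases hs with rfl | rfl <;> omega) with h | h
    · exact key w' hw'.1 w hw.1 hw'.2 (by rcases hs with rfl | rfl <;> omega) hR.symm
    · exact key w hw.1 w' hw'.1 hw.2 h hR

/-- The expected number. -/
theorem T_bound : ∃ C : ℝ, 1 ≤ C ∧ ∀ (s w : ℤ) (r : ℕ), (s = 1 ∨ s = -1) → 1 ≤ r →
    ∀ S : Finset Edg, hbU w 0 r ⊆ S → PQ (1 / 2) S (fun F => T s w r ↑F) ≤ C / r := by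
  obtain ⟨κ, hκ, hw⟩ := win_half
  refine ⟨6 / κ ^ 8 + 4, ?_, ?_⟩
  · have : 0 < 6 / κ ^ 8 := by positivity
    linarith
  intro s w r hs hr S hS
  have ok : Ok (fun _ : Edg => (1 / 2 : ℝ)) := okq (by norm_num) (by norm_num)
  rw [T_local hS]
  have hr0 : (0:ℝ) < r := by exact_mod_cast hr
  have hpos : 0 < 6 / κ ^ 8 := by positivity
  by_cases h4 : r < 4
  · have k1 : PQ (1/2) (hbU w 0 r) (fun F => T s w r ↑F) ≤ 1 := Pr_le_one ok _ _
    have k2 : (r:ℝ) ≤ 4 := by exact_mod_cast h4.le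
    refine k1.trans ?_
    rw [le_div_iff₀ hr0]
    linarith
  · obtain ⟨M, hM⟩ : ∃ M : ℕ, M = r / 4 := ⟨_, rfl⟩
    have hM1 : 1 ≤ M := by omega
    have hM4 : 4 * M ≤ r := by omega
    have hMr : r ≤ 4 * M + 3 := by omega
    obtain ⟨P, hP⟩ : ∃ P : ℝ, P = PQ (1/2) (hbU w 0 r) (fun F => T s w r ↑F) := ⟨_, rfl⟩
    obtain ⟨U, hU⟩ : ∃ U : Finset Edg, U = RE (-(M:ℤ) - r) (M + r) 0 (0 + r) := ⟨_, rfl⟩
    have hsub : ∀ w' ∈ Finset.Icc (-(M:ℤ)) M, hbU w' 0 r ⊆ U := by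
      intro w' hw'
      rw [Finset.mem_Icc] at hw'
      rw [hU]
      unfold hbU
      exact RE_subset (by omega) (by omega) le_rfl le_rfl
    have hOm : Om 0 0 M ⊆ U := by
      rw [hU]
      unfold Om
      exact RE_subset (by omega) (by omega) le_rfl (by omega)
    have hlow : ∀ w' ∈ Finset.Icc (-(M:ℤ)) M, P ≤ PQ (1/2) U (fun F => T s w' r ↑F) := by
      intro w' hw'
      rw [T_local (hsub w' hw'), hP]
      have h := T_move (q := 1/2) (by norm_num) (by norm_num) s w (w' - w) r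
      have e : w + (w' - w) = w' := by ring
      rw [e] at h
      exact h
    have hsum : ((2 * M + 1 : ℕ) : ℝ) * P ≤ ∑ w' ∈ Finset.Icc (-(M:ℤ)) M,
        PQ (1/2) U (fun F => T s w' r ↑F) := by
      have h := Finset.card_nsmul_le_sum (Finset.Icc (-(M:ℤ)) M) _ P hlow
      have hc : (Finset.Icc (-(M:ℤ)) M).card = 2 * M + 1 := by
        rw [Int.card_Icc]; omega
      rw [hc, nsmul_eq_mul] at h
      exact h
    have hlam : PQ (1/2) (Om 0 0 M) (fun F => Crs 0 0 M (3 * M) ↑F) ≤ 1 - κ^4 := by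
      have k1 := (win_blk (hw (2 * M)) hM1 le_rfl 0 0 (Om 0 0 M)).1
      rw [PQ, Pr_not] at k1
      unfold PQ
      linarith
    have hκ4 : 0 < κ^4 := by positivity
    have h2 : Ex (fun _ : Edg => (1/2:ℝ)) (Om 0 0 M)
        (fun F => ((NC src tgt ((Finset.Icc (-(M:ℤ)) M) ×ˢ {0}) (Tg 0 0 M) (↑F : Set Edg) : ℕ) : ℝ)^2)
        ≤ 2 / (1 - (1 - κ^4))^2 := by
      apply NC_sq ok _ _ _ _ _ (by linarith)
      refine le_trans (Pr_mono ok ?_) hlam
      rintro F _ ⟨x, hx, b, ⟨hb1, hb2⟩, hr⟩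
      rw [Finset.mem_product, Finset.mem_Icc, Finset.mem_singleton] at hx
      refine ⟨x, b, ?_, ?_, hr⟩
      · unfold inR; omega
      · push_cast
        unfold inR at hb1
        omega
    have h3 : ∑ w' ∈ Finset.Icc (-(M:ℤ)) M, PQ (1/2) U (fun F => T s w' r ↑F) ≤
        2 / (1 - (1 - κ^4))^2 := by
      refine le_trans ?_ h2
      have e1 : Ex (fun _ : Edg => (1/2:ℝ)) (Om 0 0 M)
          (fun F => ((NC src tgt ((Finset.Icc (-(M:ℤ)) M) ×ˢ {0}) (Tg 0 0 M)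
            (↑F : Set Edg) : ℕ) : ℝ)^2) =
          Ex (fun _ : Edg => (1/2:ℝ)) U
          (fun F => ((NC src tgt ((Finset.Icc (-(M:ℤ)) M) ×ˢ {0}) (Tg 0 0 M)
            (↑(F ∩ Om 0 0 M) : Set Edg) : ℕ) : ℝ)^2) := by
        rw [Ex_local hOm (p := fun _ : Edg => (1/2:ℝ))
          (f := fun F => ((NC src tgt ((Finset.Icc (-(M:ℤ)) M) ×ˢ {0}) (Tg 0 0 M)
            (↑(F ∩ Om 0 0 M) : Set Edg) : ℕ) : ℝ)^2)]
        · apply Ex_congr
          intro F hF
          rw [Finset.inter_eq_left.mpr hF]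
        · intro F _
          rw [Finset.inter_assoc, Finset.inter_self]
      rw [e1]
      unfold PQ Pr
      rw [← Ex_sum]
      apply Ex_mono ok
      intro F _
      refine (count_T hs hM1 hM4 F).trans ?_
      exact_mod_cast Nat.le_self_pow (by norm_num) _
    have h5 : 2 / (1 - (1 - κ^4))^2 = 2 / κ^8 := by
      congr 1; ring
    rw [h5] at h3
    have hP0 : 0 ≤ P := by rw [hP]; exact Pr_nonneg ok _ _
    have h6 : ((2 * M + 1 : ℕ) : ℝ) * P ≤ 2 / κ^8 := hsum.trans h3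
    rw [← hP, le_div_iff₀ hr0]
    have h7 : (r:ℝ) ≤ 3 * ((2 * M + 1 : ℕ) : ℝ) := by
      have : r ≤ 3 * (2 * M + 1) := by omega
      exact_mod_cast this
    have h8 : P * r ≤ 3 * (((2 * M + 1 : ℕ) : ℝ) * P) := by nlinarith
    have h9 : 3 * (2 / κ^8) = 6 / κ^8 := by ring
    linarith

end Pool.Agent.Run7.h733.CP
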