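import Pool.Agent.H974R2.Infinite
import Pool.Agent.Run7.h733.CP.Loc

/-!
Connections between boundary vertices of the half-plane `ℤ × ℕ`, in infinite volume: measurability,
invariance under horizontal translations, and local consequences.
-/

set_option maxHeartbeats 1000000

namespace Pool.Agent.Run7.h733.CP

open H974 H973S H12S Finset MeasureTheory

/-- The edges of the closed upper half-plane. -/
def HP : Set Edg := {e | 0 ≤ e.2.1}

/-- Two boundary vertices are joined in the half-plane. -/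
def J (ω : sqLattice.edgeSet → Bool) (a b : ℤ) : Prop := Reach (opn ω ∩ HP) (a, 0) (b, 0)

theorem J.symm {ω : sqLattice.edgeSet → Bool} {a b : ℤ} (h : J ω a b) : J ω b a := Reach.symm h

theorem J.trans {ω : sqLattice.edgeSet → Bool} {a b c : ℤ} (h : J ω a b) (h' : J ω b c) :
    J ω a c := Reach.trans h h'

/-- A connection uses finitely many edges. -/
theorem reach_fin {G : Set Edg} {u v : Vtx} (h : Reach G u v) :
    ∃ S : Finset Edg, Reach (G ∩ ↑S) u v := by
  induction h with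
  | refl => exact ⟨∅, Reach.refl _ _⟩
  | @tail v v' _ hs ih =>
    obtain ⟨S, hS⟩ := ih
    obtain ⟨e, he, hc⟩ := hs
    refine ⟨insert e S, ?_⟩
    have h1 : Reach (G ∩ ↑(insert e S)) u v := by
      apply hS.mono
      apply Set.inter_subset_inter_right
      rw [Finset.coe_insert]
      exact Set.subset_insert _ _
    refine h1.trans (Adj.reach ⟨e, ⟨he, ?_⟩, hc⟩)
    rw [Finset.coe_insert]
    exact Set.mem_insert _ _

theorem meas_J (a b : ℤ) : MeasurableSet {ω | J ω a b} := by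
  have h : {ω | J ω a b} = ⋃ S : Finset Edg,
      {ω | Reach ((↑(FF S ω) : Set Edg) ∩ HP) (a, 0) (b, 0)} := by
    ext ω
    rw [Set.mem_iUnion]
    constructor
    · intro hJ
      obtain ⟨S, hS⟩ := reach_fin hJ
      refine ⟨S, hS.mono ?_⟩
      rw [FF_coe]
      rintro e ⟨⟨h1, h2⟩, h3⟩
      exact ⟨⟨h1, h3⟩, h2⟩
    · rintro ⟨S, hS⟩
      refine Reach.mono ?_ hS
      rw [FF_coe]
      rintro e ⟨⟨h1, h2⟩, h3⟩
      exact ⟨h1, h3⟩
  rw [h]
  exact MeasurableSet.iUnion fun S =>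
    meas_event S (fun F => Reach ((↑F : Set Edg) ∩ HP) (a, 0) (b, 0))

/-! ### Translations -/

/-- Translation of the plane by `(t, 0)`. -/
def tv (t : ℤ) : (ℤ × ℤ) ≃ (ℤ × ℤ) where
  toFun u := (u.1 + t, u.2)
  invFun u := (u.1 - t, u.2)
  left_inv u := by simp
  right_inv u := by simp

theorem tv_adj (t : ℤ) (u v : ℤ × ℤ) : sqLattice.Adj (tv t u) (tv t v) ↔ sqLattice.Adj u v := by
  show |u.1 + t - (v.1 + t)| + |u.2 - v.2| = 1 ↔ |u.1 - v.1| + |u.2 - v.2| = 1
  rw [show u.1 + t - (v.1 + t) = u.1 - v.1 by ring]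

theorem tv_mem (t : ℤ) (e : Sym2 (ℤ × ℤ)) :
    Sym2.map (tv t) e ∈ sqLattice.edgeSet ↔ e ∈ sqLattice.edgeSet := by
  induction e using Sym2.ind with
  | _ u v =>
    rw [Sym2.map_mk, SimpleGraph.mem_edgeSet, SimpleGraph.mem_edgeSet]
    exact tv_adj t u v

/-- Translation of the edges. -/
def sh (t : ℤ) : sqLattice.edgeSet ≃ sqLattice.edgeSet where
  toFun e := ⟨Sym2.map (tv t) e.1, (tv_mem t e.1).mpr e.2⟩
  invFun e := ⟨Sym2.map (tv t).symm e.1, by
    rw [← tv_mem t, Sym2.map_map]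
    simp⟩
  left_inv e := by
    apply Subtype.ext
    simp only [Sym2.map_map]
    simp
  right_inv e := by
    apply Subtype.ext
    simp only [Sym2.map_map]
    simp

theorem sh_toE (t : ℤ) (e : Edg) : sh t (toE e) = toE ((trl t 0).φ e) := by
  apply Subtype.ext
  show Sym2.map (tv t) s(src e, tgt e) = s(src ((trl t 0).φ e), tgt ((trl t 0).φ e))
  obtain ⟨x, y, _ | _⟩ := e
  · rw [Sym2.map_mk]
    show s((x + t, y), (x + t, y + 1)) = s((x + t, y + 0), (x + t, y + 0 + 1))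
    simp
  · rw [Sym2.map_mk]
    show s((x + t, y), (x + 1 + t, y)) = s((x + t, y + 0), (x + t + 1, y + 0))
    simp [add_right_comm]

/-- Translation of the configurations. -/
noncomputable def tau (t : ℤ) : (sqLattice.edgeSet → Bool) ≃ᵐ (sqLattice.edgeSet → Bool) :=
  MeasurableEquiv.piCongrLeft (fun _ : sqLattice.edgeSet => Bool) (sh t)

theorem tau_map (p : unitInterval) (t : ℤ) : (bondLaw p).map (tau t) = bondLaw p := by
  unfold bondLaw tau
  exact Measure.infinitePi_map_piCongrLeft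
    (fun _ : sqLattice.edgeSet => ProbabilityTheory.bernoulliMeasure true false p) (sh t)

theorem tau_opn (t : ℤ) (ω : sqLattice.edgeSet → Bool) :
    opn (tau t ω) = (trl t 0).φ '' (opn ω) := by
  have key : ∀ e : Edg, (trl t 0).φ e ∈ opn (tau t ω) ↔ e ∈ opn ω := by
    intro e
    show (tau t ω) (toE ((trl t 0).φ e)) = true ↔ ω (toE e) = true
    rw [← sh_toE]
    have : (tau t ω) (sh t (toE e)) = ω (toE e) :=
      MeasurableEquiv.piCongrLeft_apply_apply (β := fun _ => Bool) (sh t) ω (toE e)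
    rw [this]
  ext e
  constructor
  · intro h
    refine ⟨(trl t 0).φ.symm e, ?_, by simp⟩
    rw [← key]
    simpa using h
  · rintro ⟨e', he', rfl⟩
    exact (key e').mpr he'

theorem tau_J (t : ℤ) (ω : sqLattice.edgeSet → Bool) (a b : ℤ) :
    J (tau t ω) (a + t) (b + t) ↔ J ω a b := by
  unfold J
  have hHP : (HP : Set Edg) = (trl t 0).φ '' HP := by
    ext e
    constructor
    · intro h
      refine ⟨(trl t 0).φ.symm e, ?_, by simp⟩
      show 0 ≤ e.2.1 - 0
      have : 0 ≤ e.2.1 := h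
      omega
    · rintro ⟨e', he', rfl⟩
      show 0 ≤ e'.2.1 + 0
      have : 0 ≤ e'.2.1 := he'
      omega
  have h : opn (tau t ω) ∩ HP = (trl t 0).φ '' (opn ω ∩ HP) := by
    rw [Set.image_inter (trl t 0).φ.injective, ← tau_opn]
    congr 1
  rw [h]
  have e1 : ∀ c : ℤ, ((c + t, 0) : Vtx) = (trl t 0).ψ (c, 0) := by
    intro c
    show ((c + t, 0) : Vtx) = (c + t, 0 + 0)
    simp
  rw [e1, e1]
  exact (trl t 0).reach_iff

/-! ### Exit from a half-box -/

theorem hp_nonneg {G : Set Edg} {u v : Vtx} (hu : 0 ≤ u.2) (h : Reach (G ∩ HP) u v) :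
    0 ≤ v.2 := by
  induction h with
  | refl => exact hu
  | @tail z z' _ hs ih =>
    obtain ⟨⟨x, y, bo⟩, ⟨_, he⟩, hcase⟩ := hs
    have he' : 0 ≤ y := he
    cases bo
    · simp only [src_mk, tgt_false] at hcase
      rcases hcase with ⟨h3, h4⟩ | ⟨h3, h4⟩
      · rw [← h4]; simp only; omega
      · rw [← h3]; simp only; omega
    · simp only [src_mk, tgt_true] at hcase
      rcases hcase with ⟨h3, h4⟩ | ⟨h3, h4⟩
      · rw [← h4]; simp only; omega
      · rw [← h3]; simp only; omega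

theorem exit_half {G : Set Edg} {w : ℤ} {r : ℕ} {v : Vtx}
    (h : Reach (G ∩ HP) (w, 0) v) (hv : v.1 ≤ w - r ∨ w + r ≤ v.1) :
    ∃ u ∈ rimU w 0 r, Reach (G ∩ ↑(hbU w 0 r)) (w, 0) u := by
  obtain ⟨z, z1, z2, z3⟩ := first_exit (a := w - r) (b := w + r) (c := -1) (d := 0 + r)
    (by unfold inR; simp only; omega) h (by omega)
  have hz : 0 ≤ z.2 := by
    apply hp_nonneg (G := G) (u := (w, 0)) le_rfl
    exact z3.mono Set.inter_subset_left
  refine ⟨z, ⟨?_, ?_⟩, z3.mono ?_⟩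
  · unfold inR at z1 ⊢; omega
  · omega
  · rintro ⟨x, y, bo⟩ ⟨⟨e1, e2⟩, e3⟩
    refine ⟨e1, ?_⟩
    have e2' : 0 ≤ y := e2
    unfold hbU
    cases bo
    · simp only [Finset.mem_coe, mem_RE_false] at e3 ⊢; omega
    · simp only [Finset.mem_coe, mem_RE_true] at e3 ⊢; omega

theorem hbU_HP (w : ℤ) (r : ℕ) : (↑(hbU w 0 r) : Set Edg) ⊆ HP := by
  rintro ⟨x, y, bo⟩ he
  show 0 ≤ y
  unfold hbU at he
  cases bo
  · simp only [Finset.mem_coe, mem_RE_false] at he; omega
  · simp only [Finset.mem_coe, mem_RE_true] at he; omega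

/-- A vertex joined to distance `m` but not to its neighbours on the side `s`. -/
theorem T_of {ω : sqLattice.edgeSet → Bool} {s w b : ℤ} {r : ℕ} (hJ : J ω w b)
    (hb : b ≤ w - r ∨ w + r ≤ b) (hn : ∀ j : ℕ, 1 ≤ j → j ≤ r → ¬ J ω w (w + s * j)) :
    T s w r (opn ω) := by
  refine ⟨exit_half hJ hb, ?_⟩
  intro j h1 h2 h3
  apply hn j h1 h2
  refine h3.mono ?_
  rintro e ⟨e1, e2⟩
  exact ⟨e1, hbU_HP w r e2⟩

/-- The local event. -/
def TT (w : ℤ) (r : ℕ) (F : Set Edg) : Prop := T 1 w r F ∨ T (-1) w r F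

/-- The local event in infinite volume. -/
def G (w : ℤ) (r : ℕ) : Set (sqLattice.edgeSet → Bool) := {ω | TT w r (opn ω)}

theorem TT_FF {w : ℤ} {r : ℕ} {S : Finset Edg} (hS : hbU w 0 r ⊆ S)
    (ω : sqLattice.edgeSet → Bool) : TT w r (↑(FF S ω) : Set Edg) ↔ TT w r (opn ω) := by
  have h : (↑(FF S ω) : Set Edg) ∩ ↑(hbU w 0 r) = opn ω ∩ ↑(hbU w 0 r) := by
    rw [FF_coe, Set.inter_assoc]
    congr 1
    exact Set.inter_eq_right.mpr (by exact_mod_cast hS)
  unfold TT T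
  rw [h]

theorem G_eq {w : ℤ} {r : ℕ} {S : Finset Edg} (hS : hbU w 0 r ⊆ S) :
    G w r = {ω | TT w r (↑(FF S ω) : Set Edg)} := by
  ext ω
  exact (TT_FF hS ω).symm

theorem meas_G (w : ℤ) (r : ℕ) : MeasurableSet (G w r) := by
  rw [G_eq (Finset.Subset.refl _)]
  exact meas_event _ (fun F => TT w r (↑F : Set Edg))

/-- The critical law. -/
noncomputable def mu : Measure (sqLattice.edgeSet → Bool) := bondLaw hlf

instance : IsProbabilityMeasure mu := by unfold mu; infer_instance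

theorem mu_event (S : Finset Edg) (Q : Finset Edg → Prop) :
    mu.real {ω | Q (FF S ω)} = PQ (1 / 2) S Q := law_event hlf S Q

theorem TT_pr : ∃ C : ℝ, 1 ≤ C ∧ ∀ (w : ℤ) (r : ℕ), 1 ≤ r → ∀ S : Finset Edg, hbU w 0 r ⊆ S →
    PQ (1 / 2) S (fun F => TT w r ↑F) ≤ C / r := by
  obtain ⟨C, hC, h⟩ := T_bound
  refine ⟨2 * C, by linarith, fun w r hr S hS => ?_⟩
  have ok : Ok (fun _ : Edg => (1 / 2 : ℝ)) := okq (by norm_num) (by norm_num)
  have h1 := h 1 w r (Or.inl rfl) hr S hS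
  have h2 := h (-1) w r (Or.inr rfl) hr S hS
  have h3 := Pr_or_le ok S (fun F => T 1 w r (↑F : Set Edg)) (fun F => T (-1) w r (↑F : Set Edg))
  calc PQ (1 / 2) S (fun F => TT w r ↑F) ≤ _ := h3
    _ ≤ C / r + C / r := add_le_add h1 h2
    _ = 2 * C / r := by ring

theorem G_pr : ∃ C : ℝ, 1 ≤ C ∧ (∀ (w : ℤ) (r : ℕ), 1 ≤ r → mu.real (G w r) ≤ C / r) ∧
    ∀ (w w' : ℤ) (r : ℕ), 1 ≤ r → w + r < w' - r → mu.real (G w r ∩ G w' r) ≤ (C / r) ^ 2 := by
  obtain ⟨C, hC, h⟩ := TT_pr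
  refine ⟨C, hC, fun w r hr => ?_, fun w w' r hr hd => ?_⟩
  · rw [G_eq (Finset.Subset.refl _), mu_event _ (fun F => TT w r (↑F : Set Edg))]
    exact h w r hr _ (Finset.Subset.refl _)
  · have s1 : hbU w 0 r ⊆ hbU w 0 r ∪ hbU w' 0 r := Finset.subset_union_left
    have s2 : hbU w' 0 r ⊆ hbU w 0 r ∪ hbU w' 0 r := Finset.subset_union_right
    have e1 : G w r ∩ G w' r = {ω | (fun F : Finset Edg => TT w r (↑F : Set Edg) ∧
        TT w' r (↑F : Set Edg)) (FF (hbU w 0 r ∪ hbU w' 0 r) ω)} := by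
      rw [G_eq s1, G_eq s2]
      rfl
    have hdis : Disjoint (hbU w 0 r) (hbU w' 0 r) := by
      rw [Finset.disjoint_left]
      rintro ⟨x, y, bo⟩ h1 h2
      unfold hbU at h1 h2
      cases bo
      · simp only [mem_RE_false] at h1 h2; omega
      · simp only [mem_RE_true] at h1 h2; omega
    have hloc : ∀ (v : ℤ) (F : Finset Edg), TT v r (↑F : Set Edg) ↔
        TT v r (↑(F ∩ hbU v 0 r) : Set Edg) := by
      intro v F
      unfold TT
      rw [T_inter (Finset.Subset.refl _), T_inter (Finset.Subset.refl _)]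
    rw [e1, mu_event _ (fun F : Finset Edg => TT w r (↑F : Set Edg) ∧ TT w' r (↑F : Set Edg))]
    have e2 := Pr_indep (p := fun _ : Edg => (1/2:ℝ)) s1 s2 hdis
      (A := fun F : Finset Edg => TT w r (↑F : Set Edg))
      (B := fun F : Finset Edg => TT w' r (↑F : Set Edg))
      (fun F _ => hloc w F) (fun F _ => hloc w' F)
    unfold PQ
    rw [e2, sq]
    have ok : Ok (fun _ : Edg => (1 / 2 : ℝ)) := okq (by norm_num) (by norm_num)
    have hr0 : (0:ℝ) < r := by exact_mod_cast hr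
    apply mul_le_mul (h w r hr _ s1) (h w' r hr _ s2) (Pr_nonneg ok _ _)
    positivity

end Pool.Agent.Run7.h733.CP
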