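import Pool.Agent.Run7.h733.CP.Taylor

/-!
Scaling limits of functions of lattice points with good differences.
-/

set_option maxHeartbeats 1000000

namespace Pool.Agent.Run7.h733.CP

open Finset Filter Topology

variable {n : ℕ}

/-- The lattice points close to `N u`. -/
noncomputable def lat (N : ℕ) (u : Fin n → ℝ) : Fin n → ℤ := fun i => ⌊(N:ℝ) * u i⌋

/-- Any two points are at distance at least `g`. -/
def GapR (g : ℝ) (u : Fin n → ℝ) : Prop := ∀ i j, i < j → u i + g ≤ u j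

theorem GapR.strict {g : ℝ} {u : Fin n → ℝ} (hg : 0 < g) (h : GapR g u) : StrictMono u := by
  intro i j hij
  have := h i j hij
  linarith

theorem exists_gap {u : Fin n → ℝ} (h : StrictMono u) : ∃ g : ℝ, 0 < g ∧ GapR g u := by
  have h1 : ∀ᶠ g : ℝ in 𝓝[>] 0, ∀ p : {p : Fin n × Fin n // p.1 < p.2}, g ≤ u p.1.2 - u p.1.1 := by
    rw [Filter.eventually_all]
    intro p
    have hp : 0 < u p.1.2 - u p.1.1 := sub_pos.mpr (h p.2)
    exact (eventually_le_nhds hp).filter_mono nhdsWithin_le_nhds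
  have h2 : ∀ᶠ g : ℝ in 𝓝[>] 0, 0 < g := self_mem_nhdsWithin
  obtain ⟨g, hg1, hg2⟩ := (h1.and h2).exists
  refine ⟨g, hg2, fun i j hij => ?_⟩
  have := hg1 ⟨(i, j), hij⟩
  simp only at this
  linarith

theorem GapR.near {g ρ : ℝ} {u v : Fin n → ℝ} (h : GapR g u) (hv : ∀ i, |v i - u i| ≤ ρ) :
    GapR (g - 2 * ρ) v := by
  intro i j hij
  have h1 := h i j hij
  have h2 := abs_le.mp (hv i)
  have h3 := abs_le.mp (hv j)
  linarith [h2.1, h2.2, h3.1, h3.2]

theorem lat_apart {g : ℝ} {u : Fin n → ℝ} (h : GapR g u) {N m : ℕ}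
    (hm : (m:ℝ) + 1 ≤ N * g) : Apart m (lat N u) := by
  intro i j hij
  have h1 := h i j hij
  show ⌊(N:ℝ) * u i⌋ + (m:ℤ) ≤ ⌊(N:ℝ) * u j⌋
  apply Int.le_floor.mpr
  push_cast
  have h2 := Int.floor_le ((N:ℝ) * u i)
  have h3 : (N:ℝ) * (u i + g) ≤ N * u j := mul_le_mul_of_nonneg_left h1 (Nat.cast_nonneg N)
  linarith

theorem floor_diff (a b : ℝ) : |((⌊a⌋ - ⌊b⌋ : ℤ) : ℝ) - (a - b)| ≤ 1 := by
  have h1 := Int.floor_le a
  have h2 := Int.lt_floor_add_one a
  have h3 := Int.floor_le b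
  have h4 := Int.lt_floor_add_one b
  push_cast
  rw [abs_le]
  constructor <;> linarith

/-- The estimates at finite scale. -/
theorem core {K L : ℝ} {P : (Fin n → ℤ) → ℝ} (h : Reg K L P) {g ρ : ℝ} {u v : Fin n → ℝ}
    (hg : 0 < g) (hu : GapR g u) (hρ : 0 ≤ ρ) (hρg : ρ ≤ g / 32) (hv : ∀ i, |v i - u i| ≤ ρ)
    {N : ℕ} (hN : 100 ≤ (N:ℝ) * g) :
    |P (lat N v) - P (lat N u)| ≤ 8 * K / (N * g) * (n * (N * ρ + 1)) ∧
    (∀ i, |dd P i (lat N v) - dd P i (lat N u)| ≤ 64 * L / (N * g) ^ 2 * (n * (N * ρ + 1))) ∧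
    |P (lat N v) - P (lat N u) -
      ∑ i, ((lat N v i - lat N u i : ℤ) : ℝ) * dd P i (lat N u)| ≤
        64 * L / (N * g) ^ 2 * (n * (N * ρ + 1)) ^ 2 ∧
    (∀ i, |dd P i (lat N u)| ≤ 8 * K / (N * g)) := by
  have hK := h.hK
  have hL := h.hL
  have hN0 : (0:ℝ) ≤ N := Nat.cast_nonneg N
  obtain ⟨k, hk⟩ : ∃ k : ℕ, k = ⌈(N:ℝ) * ρ⌉₊ + 1 := ⟨_, rfl⟩
  obtain ⟨m, hm⟩ : ∃ m : ℕ, m = ⌊(N:ℝ) * g / 4⌋₊ := ⟨_, rfl⟩
  have hk1 : (N:ℝ) * ρ + 1 ≤ k := by
    rw [hk]; push_cast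
    have := Nat.le_ceil ((N:ℝ) * ρ)
    linarith
  have hk2 : (k:ℝ) ≤ N * ρ + 2 := by
    rw [hk]; push_cast
    have := Nat.ceil_lt_add_one (show 0 ≤ (N:ℝ) * ρ by positivity)
    linarith
  have hm1 : (m:ℝ) ≤ N * g / 4 := by
    rw [hm]; exact Nat.floor_le (by positivity)
  have hm2 : (N:ℝ) * g / 8 ≤ m := by
    rw [hm]
    have := Nat.lt_floor_add_one ((N:ℝ) * g / 4)
    linarith
  have hm0 : 1 ≤ m := by
    have : (0:ℝ) < m := by linarith
    exact_mod_cast this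
  have hmp : (0:ℝ) < m := by exact_mod_cast hm0
  have hNρ : (N:ℝ) * ρ ≤ N * g / 32 := by
    have := mul_le_mul_of_nonneg_left hρg hN0
    linarith
  have hx : Apart (m + 2 * k) (lat N u) := by
    apply lat_apart hu
    push_cast
    linarith
  have hdiff : ∀ i, |((lat N v i - lat N u i : ℤ) : ℝ)| ≤ N * ρ + 1 := by
    intro i
    have h1 := floor_diff ((N:ℝ) * v i) (N * u i)
    have h2 : |(N:ℝ) * v i - N * u i| ≤ N * ρ := by
      rw [← mul_sub, abs_mul, abs_of_nonneg hN0]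
      exact mul_le_mul_of_nonneg_left (hv i) hN0
    have h3 := abs_sub_abs_le_abs_sub ((lat N v i - lat N u i : ℤ) : ℝ) ((N:ℝ) * v i - N * u i)
    have h4 : |((lat N v i - lat N u i : ℤ) : ℝ) - ((N:ℝ) * v i - N * u i)| ≤ 1 := h1
    linarith
  have hy : ∀ i, |lat N v i - lat N u i| ≤ (k:ℤ) := by
    intro i
    have h1 := (hdiff i).trans hk1
    rw [← Int.cast_abs] at h1
    exact_mod_cast h1
  have hdst : (dst (lat N v) (lat N u) : ℝ) ≤ n * (N * ρ + 1) := by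
    unfold dst
    push_cast
    have h1 : ∀ i ∈ (Finset.univ : Finset (Fin n)),
        (((lat N v i - lat N u i).natAbs : ℕ) : ℝ) ≤ N * ρ + 1 := by
      intro i _
      rw [Nat.cast_natAbs, Int.cast_abs]
      exact hdiff i
    have h2 := Finset.sum_le_card_nsmul _ _ _ h1
    rw [Finset.card_univ, Fintype.card_fin, nsmul_eq_mul] at h2
    exact h2
  have hdst0 : (0:ℝ) ≤ dst (lat N v) (lat N u) := Nat.cast_nonneg _
  have hNg : 0 < (N:ℝ) * g := by linarith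
  have c1 : K / m ≤ 8 * K / (N * g) := by
    rw [div_le_div_iff₀ hmp hNg]
    nlinarith
  have c2 : L / (m:ℝ) ^ 2 ≤ 64 * L / (N * g) ^ 2 := by
    rw [div_le_div_iff₀ (by positivity) (by positivity)]
    have : ((N:ℝ) * g) ^ 2 ≤ (8 * m) ^ 2 := pow_le_pow_left₀ hNg.le (by linarith) 2
    nlinarith
  refine ⟨?_, ?_, ?_, ?_⟩
  · refine (h.lip hm0 hx hy).trans ?_
    exact mul_le_mul c1 hdst hdst0 (by positivity)
  · intro i
    refine (h.dd_lip hm0 hx hy i).trans ?_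
    exact mul_le_mul c2 hdst hdst0 (by positivity)
  · refine (h.taylor hm0 hx hy).trans ?_
    exact mul_le_mul c2 (pow_le_pow_left₀ hdst0 hdst 2) (by positivity) (by positivity)
  · intro i
    refine le_trans ?_ c1
    exact h.d1 m _ hm0 (hx.anti (by omega)) i

/-- The main estimate with the scaled differences. -/
theorem core2 {K L : ℝ} {P : (Fin n → ℤ) → ℝ} (h : Reg K L P) {g ρ : ℝ} {u v : Fin n → ℝ}
    (hg : 0 < g) (hu : GapR g u) (hρ : 0 ≤ ρ) (hρg : ρ ≤ g / 32) (hv : ∀ i, |v i - u i| ≤ ρ)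
    {N : ℕ} (hN : 100 ≤ (N:ℝ) * g) :
    |P (lat N v) - P (lat N u) - ∑ i, (v i - u i) * (N * dd P i (lat N u))| ≤
      64 * L / g ^ 2 * (n * (ρ + (N:ℝ)⁻¹)) ^ 2 + n * (8 * K / g) * (N:ℝ)⁻¹ := by
  obtain ⟨-, -, h3, h4⟩ := core h hg hu hρ hρg hv hN
  have hNpos : (0:ℝ) < N := by
    by_contra hc
    have : (N:ℝ) = 0 := le_antisymm (not_lt.mp hc) (Nat.cast_nonneg N)
    rw [this] at hN
    linarith
  have e : P (lat N v) - P (lat N u) - ∑ i, (v i - u i) * (N * dd P i (lat N u)) =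
      (P (lat N v) - P (lat N u) -
      ∑ i, ((lat N v i - lat N u i : ℤ) : ℝ) * dd P i (lat N u)) +
      ∑ i, (((lat N v i - lat N u i : ℤ) : ℝ) - ((N:ℝ) * v i - N * u i)) * dd P i (lat N u) := by
    have : ∑ i, (((lat N v i - lat N u i : ℤ) : ℝ) - ((N:ℝ) * v i - N * u i)) * dd P i (lat N u) =
        ∑ i, ((lat N v i - lat N u i : ℤ) : ℝ) * dd P i (lat N u) -
        ∑ i, (v i - u i) * (N * dd P i (lat N u)) := by
      rw [← Finset.sum_sub_distrib]
      apply Finset.sum_congr rfl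
      intro i _
      ring
    rw [this]; ring
  rw [e]
  refine (abs_add_le _ _).trans (add_le_add ?_ ?_)
  · refine h3.trans (le_of_eq ?_)
    field_simp
  · refine (Finset.abs_sum_le_sum_abs _ _).trans ?_
    have h5 : ∀ i ∈ (Finset.univ : Finset (Fin n)),
        |(((lat N v i - lat N u i : ℤ) : ℝ) - ((N:ℝ) * v i - N * u i)) * dd P i (lat N u)| ≤
          8 * K / (N * g) := by
      intro i _
      rw [abs_mul]
      have h6 : |((lat N v i - lat N u i : ℤ) : ℝ) - ((N:ℝ) * v i - N * u i)| ≤ 1 :=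
        floor_diff ((N:ℝ) * v i) (N * u i)
      have h7 := h4 i
      have h8 := abs_nonneg (dd P i (lat N u))
      calc _ ≤ 1 * |dd P i (lat N u)| := mul_le_mul_of_nonneg_right h6 h8
        _ ≤ _ := by linarith
    have h9 := Finset.sum_le_card_nsmul _ _ _ h5
    rw [Finset.card_univ, Fintype.card_fin, nsmul_eq_mul] at h9
    refine h9.trans (le_of_eq ?_)
    field_simp

/-- The error terms converge. -/
theorem err_lim {N : ℕ → ℕ} (hN : Tendsto N atTop atTop) (a b c ρ : ℝ) :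
    Tendsto (fun k => a * (b * (ρ + ((N k : ℕ) : ℝ)⁻¹)) ^ 2 + c * ((N k : ℕ) : ℝ)⁻¹) atTop
      (𝓝 (a * (b * ρ) ^ 2)) := by
  have h1 : Tendsto (fun k => ((N k : ℕ) : ℝ)⁻¹) atTop (𝓝 0) :=
    tendsto_inv_atTop_zero.comp (tendsto_natCast_atTop_atTop.comp hN)
  have h2 := ((((h1.const_add ρ).const_mul b).pow 2).const_mul a).add (h1.const_mul c)
  simpa using h2

theorem err_lim1 {N : ℕ → ℕ} (hN : Tendsto N atTop atTop) (a ρ : ℝ) :
    Tendsto (fun k => a * (ρ + ((N k : ℕ) : ℝ)⁻¹)) atTop (𝓝 (a * ρ)) := by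
  have h1 : Tendsto (fun k => ((N k : ℕ) : ℝ)⁻¹) atTop (𝓝 0) :=
    tendsto_inv_atTop_zero.comp (tendsto_natCast_atTop_atTop.comp hN)
  have h2 := (h1.const_add ρ).const_mul a
  simpa using h2

theorem ev_large {N : ℕ → ℕ} (hN : Tendsto N atTop atTop) {g : ℝ} (hg : 0 < g) (M : ℝ) :
    ∀ᶠ k in atTop, M ≤ ((N k : ℕ) : ℝ) * g :=
  (Tendsto.atTop_mul_const hg (tendsto_natCast_atTop_atTop.comp hN)).eventually_ge_atTop M

/-- The scaled differences form a Cauchy sequence. -/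
theorem dd_cauchy {K L : ℝ} {P : (Fin n → ℤ) → ℝ} (h : Reg K L P) {N : ℕ → ℕ}
    (hN : Tendsto N atTop atTop) {f : (Fin n → ℝ) → ℝ}
    (hf : ∀ u, StrictMono u → Tendsto (fun k => P (lat (N k) u)) atTop (𝓝 (f u)))
    {u : Fin n → ℝ} (hu : StrictMono u) (i : Fin n) :
    ∃ l, Tendsto (fun k => ((N k : ℕ) : ℝ) * dd P i (lat (N k) u)) atTop (𝓝 l) := by
  obtain ⟨g, hg, hgu⟩ := exists_gap hu
  apply cauchySeq_tendsto_of_complete
  rw [Metric.cauchySeq_iff]
  intro ε hε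
  obtain ⟨c, hc⟩ : ∃ c : ℝ, c = 64 * L / g ^ 2 * (n:ℝ) ^ 2 := ⟨_, rfl⟩
  have hL := h.hL
  have hc0 : 0 ≤ c := by rw [hc]; positivity
  obtain ⟨ρ, hρ⟩ : ∃ ρ : ℝ, ρ = min (g / 32) (ε / (8 * (c + 1))) := ⟨_, rfl⟩
  have hρ0 : 0 < ρ := by rw [hρ]; positivity
  have hρ1 : ρ ≤ g / 32 := by rw [hρ]; exact min_le_left _ _
  have hρ2 : c * ρ ≤ ε / 8 := by
    have h1 : ρ ≤ ε / (8 * (c + 1)) := by rw [hρ]; exact min_le_right _ _
    rw [le_div_iff₀ (by positivity)] at h1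
    nlinarith
  -- the second point
  obtain ⟨v, hv⟩ : ∃ v : Fin n → ℝ, v = Function.update u i (u i + ρ) := ⟨_, rfl⟩
  have hvi : v i = u i + ρ := by rw [hv]; simp
  have hvj : ∀ j, j ≠ i → v j = u j := by intro j hj; rw [hv]; simp [hj]
  have hvu : ∀ j, |v j - u j| ≤ ρ := by
    intro j
    by_cases hj : j = i
    · subst hj; rw [hvi]; simp [abs_of_pos hρ0]
    · rw [hvj j hj]; simp [hρ0.le]
  have hvs : StrictMono v := by
    apply GapR.strict (g := g - 2 * ρ) (by linarith)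
    exact hgu.near hvu
  have hsum : ∀ a : Fin n → ℝ, ∑ j, (v j - u j) * a j = ρ * a i := by
    intro a
    rw [Finset.sum_eq_single i]
    · rw [hvi]; ring
    · intro j _ hj; rw [hvj j hj]; ring
    · intro hne; exact absurd (Finset.mem_univ i) hne
  -- three events
  have e1 := ev_large hN hg 100
  have e2 : ∀ᶠ k in atTop, 64 * L / g ^ 2 * (n * (ρ + ((N k : ℕ) : ℝ)⁻¹)) ^ 2 +
      n * (8 * K / g) * ((N k : ℕ) : ℝ)⁻¹ < 64 * L / g ^ 2 * (n * ρ) ^ 2 + ρ * (ε / 8) :=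
    (err_lim hN _ _ _ _).eventually_lt_const (by
      have : 0 < ρ * (ε / 8) := by positivity
      linarith)
  have e3 := (hf v hvs).cauchySeq
  have e4 := (hf u hu).cauchySeq
  rw [Metric.cauchySeq_iff] at e3 e4
  obtain ⟨k3, e3⟩ := e3 (ρ * (ε / 8)) (by positivity)
  obtain ⟨k4, e4⟩ := e4 (ρ * (ε / 8)) (by positivity)
  obtain ⟨k1, hk1⟩ := eventually_atTop.mp (e1.and e2)
  refine ⟨max k1 (max k3 k4), ?_⟩
  intro a ha b hb
  have ha1 : k1 ≤ a := (le_max_left _ _).trans ha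
  have ha3 : k3 ≤ a := (le_max_left _ _).trans ((le_max_right _ _).trans ha)
  have ha4 : k4 ≤ a := (le_max_right _ _).trans ((le_max_right _ _).trans ha)
  have hb1 : k1 ≤ b := (le_max_left _ _).trans hb
  have hb3 : k3 ≤ b := (le_max_left _ _).trans ((le_max_right _ _).trans hb)
  have hb4 : k4 ≤ b := (le_max_right _ _).trans ((le_max_right _ _).trans hb)
  have key : ∀ k, k1 ≤ k → |P (lat (N k) v) - P (lat (N k) u) -
      ρ * (((N k : ℕ) : ℝ) * dd P i (lat (N k) u))| ≤ ρ * (ε / 4) := by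
    intro k hk
    obtain ⟨q1, q2⟩ := hk1 k hk
    have q3 := core2 h hg hgu hρ0.le hρ1 hvu q1
    rw [hsum (fun j => ((N k : ℕ) : ℝ) * dd P j (lat (N k) u))] at q3
    have q4 : 64 * L / g ^ 2 * (n * ρ) ^ 2 = ρ * (c * ρ) := by rw [hc]; ring
    rw [q4] at q2
    have q5 : ρ * (c * ρ) ≤ ρ * (ε / 8) := mul_le_mul_of_nonneg_left hρ2 hρ0.le
    linarith
  have r1 := abs_le.mp (key a ha1)
  have r2 := abs_le.mp (key b hb1)
  have r3 := e3 a ha3 b hb3
  have r4 := e4 a ha4 b hb4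
  rw [Real.dist_eq, abs_lt] at r3 r4
  rw [Real.dist_eq]
  have r5 : |ρ * (((N a : ℕ) : ℝ) * dd P i (lat (N a) u) -
      ((N b : ℕ) : ℝ) * dd P i (lat (N b) u))| < ρ * ε := by
    rw [abs_lt]
    constructor <;> nlinarith [r1.1, r1.2, r2.1, r2.2, r3.1, r3.2, r4.1, r4.2]
  rw [abs_mul, abs_of_pos hρ0] at r5
  exact lt_of_mul_lt_mul_left r5 hρ0.le

/-- Regularity of the limits. -/
theorem limit_reg {K L : ℝ} {P : (Fin n → ℤ) → ℝ} (h : Reg K L P) {N : ℕ → ℕ}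
    (hN : Tendsto N atTop atTop) {f : (Fin n → ℝ) → ℝ}
    (hf : ∀ u, StrictMono u → Tendsto (fun k => P (lat (N k) u)) atTop (𝓝 (f u))) :
    ∃ D : (Fin n → ℝ) → Fin n → ℝ,
      (∀ u, StrictMono u → ∀ i, Tendsto (fun k => ((N k : ℕ) : ℝ) * dd P i (lat (N k) u)) atTop
        (𝓝 (D u i))) ∧
      (∀ (g : ℝ) (u : Fin n → ℝ), 0 < g → GapR g u → (∀ i, |D u i| ≤ 8 * K / g) ∧
        ∀ (v : Fin n → ℝ) (ρ : ℝ), 0 ≤ ρ → ρ ≤ g / 32 → (∀ i, |v i - u i| ≤ ρ) →
          (∀ i, |D v i - D u i| ≤ 64 * L * n / g ^ 2 * ρ) ∧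
          |f v - f u - ∑ i, (v i - u i) * D u i| ≤ 64 * L * n ^ 2 / g ^ 2 * ρ ^ 2) := by
  have hex : ∀ u : Fin n → ℝ, StrictMono u → ∀ i, ∃ l,
      Tendsto (fun k => ((N k : ℕ) : ℝ) * dd P i (lat (N k) u)) atTop (𝓝 l) :=
    fun u hu i => dd_cauchy h hN hf hu i
  choose! D hD using hex
  refine ⟨D, hD, ?_⟩
  intro g u hg hu
  have hus := hu.strict hg
  have e1 := ev_large hN hg 100
  constructor
  · intro i
    apply le_of_tendsto (hD u hus i).abs
    filter_upwards [e1] with k hk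
    obtain ⟨-, -, -, h4⟩ := core h hg hu le_rfl (by positivity) (v := u) (by simp) hk
    have hNpos : (0:ℝ) < N k := by
      by_contra hc
      have : ((N k : ℕ) : ℝ) = 0 := le_antisymm (not_lt.mp hc) (Nat.cast_nonneg _)
      rw [this] at hk
      linarith
    rw [abs_mul, abs_of_pos hNpos]
    have := mul_le_mul_of_nonneg_left (h4 i) hNpos.le
    refine this.trans (le_of_eq ?_)
    field_simp
  · intro v ρ hρ hρg hv
    have hvs : StrictMono v := by
      apply GapR.strict (g := g - 2 * ρ) (by linarith)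
      exact hu.near hv
    constructor
    · intro i
      have h1 := ((hD v hvs i).sub (hD u hus i)).abs
      have h2 : Tendsto (fun k => 64 * L * n / g ^ 2 * (ρ + ((N k : ℕ) : ℝ)⁻¹)) atTop
          (𝓝 (64 * L * n / g ^ 2 * ρ)) := err_lim1 hN _ _
      apply le_of_tendsto_of_tendsto h1 h2
      filter_upwards [e1] with k hk
      obtain ⟨-, h3, -, -⟩ := core h hg hu hρ hρg hv hk
      have hNpos : (0:ℝ) < N k := by
        by_contra hc
        have : ((N k : ℕ) : ℝ) = 0 := le_antisymm (not_lt.mp hc) (Nat.cast_nonneg _)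
        rw [this] at hk
        linarith
      rw [← mul_sub, abs_mul, abs_of_pos hNpos]
      have := mul_le_mul_of_nonneg_left (h3 i) hNpos.le
      refine this.trans (le_of_eq ?_)
      field_simp
    · have h1 : Tendsto (fun k => |P (lat (N k) v) - P (lat (N k) u) -
          ∑ i, (v i - u i) * (((N k : ℕ) : ℝ) * dd P i (lat (N k) u))|) atTop
          (𝓝 |f v - f u - ∑ i, (v i - u i) * D u i|) := by
        apply Tendsto.abs
        apply ((hf v hvs).sub (hf u hus)).sub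
        apply tendsto_finsetSum
        intro i _
        exact (hD u hus i).const_mul _
      have h2 := err_lim hN (64 * L / g ^ 2) n (n * (8 * K / g)) ρ
      have h3 : |f v - f u - ∑ i, (v i - u i) * D u i| ≤ 64 * L / g ^ 2 * (n * ρ) ^ 2 := by
        apply le_of_tendsto_of_tendsto h1 h2
        filter_upwards [e1] with k hk
        exact core2 h hg hu hρ hρg hv hk
      refine h3.trans (le_of_eq ?_)
      ring

end Pool.Agent.Run7.h733.CP
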