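import Pool.Agent.Run7.h733.CP.Final

/-!
The final statements for the connection patterns, and the hitting probabilities.
-/

set_option maxHeartbeats 1000000

namespace Pool.Agent.Run7.h733.CP

open H974 H973S H12S Finset MeasureTheory Filter Topology

variable {n : ℕ}

/-- The graph of the open edges in the half-plane. -/
def upper (ω : sqLattice.edgeSet → Bool) : SimpleGraph (ℤ × ℤ) :=
  SimpleGraph.fromEdgeSet {e | (∃ h : e ∈ sqLattice.edgeSet, ω ⟨e, h⟩ = true) ∧ ∀ v ∈ e, 0 ≤ v.2}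

theorem upper_adj (ω : sqLattice.edgeSet → Bool) (u v : ℤ × ℤ) :
    (upper ω).Adj u v ↔ H974.Adj (opn ω ∩ HP) u v := by
  unfold upper
  rw [SimpleGraph.fromEdgeSet_adj]
  constructor
  · rintro ⟨⟨⟨h, hω⟩, hV⟩, hne⟩
    have hadj : (H974.openGraph ω).Adj u v := by
      unfold H974.openGraph
      rw [SimpleGraph.fromEdgeSet_adj]
      exact ⟨⟨h, hω⟩, hne⟩
    obtain ⟨e, he, hcase⟩ := (H974.openGraph_adj ω u v).mp hadj
    have hu : 0 ≤ u.2 := hV u (Sym2.mem_mk_left u v)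
    have hv : 0 ≤ v.2 := hV v (Sym2.mem_mk_right u v)
    refine ⟨e, ⟨he, ?_⟩, hcase⟩
    have hs : e.2.1 = (src e).2 := rfl
    show 0 ≤ e.2.1
    rw [hs]
    rcases hcase with ⟨h1, -⟩ | ⟨h1, -⟩
    · rw [h1]; exact hu
    · rw [h1]; exact hv
  · rintro ⟨e, ⟨he, he2⟩, hcase⟩
    have hadj : (H974.openGraph ω).Adj u v := (H974.openGraph_adj ω u v).mpr ⟨e, he, hcase⟩
    unfold H974.openGraph at hadj
    rw [SimpleGraph.fromEdgeSet_adj] at hadj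
    refine ⟨⟨hadj.1, ?_⟩, hadj.2⟩
    obtain ⟨x, y, bo⟩ := e
    have he2' : 0 ≤ y := he2
    have hs : 0 ≤ (src (x, y, bo)).2 := he2'
    have ht : 0 ≤ (tgt (x, y, bo)).2 := by
      cases bo
      · rw [tgt_false]; simp only; omega
      · rw [tgt_true]; exact he2'
    intro w hw
    rcases Sym2.mem_iff.mp hw with rfl | rfl
    · rcases hcase with ⟨h1, h2⟩ | ⟨h1, h2⟩
      · rw [← h1]; exact hs
      · rw [← h2]; exact ht
    · rcases hcase with ⟨h1, h2⟩ | ⟨h1, h2⟩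
      · rw [← h2]; exact ht
      · rw [← h1]; exact hs

theorem upper_J (ω : sqLattice.edgeSet → Bool) (a b : ℤ) :
    (upper ω).Reachable (a, 0) (b, 0) ↔ J ω a b := by
  rw [SimpleGraph.reachable_iff_reflTransGen]
  have : (upper ω).Adj = H974.Adj (opn ω ∩ HP) := by
    funext u v
    exact propext (upper_adj ω u v)
  rw [this]
  rfl

/-- The regularity hypotheses hold for the laws of the patterns. -/
theorem reg_prob : ∃ K : ℝ, 1 ≤ K ∧ (∀ (n : ℕ) (A : Set (Finset (Fin (n + 1) × Fin (n + 1)))),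
    Reg K (n * K) (fun x : Fin n → ℤ => prob x A)) ∧
    ∀ (n : ℕ) (A : Set (Finset (Fin (n + 1) × Fin (n + 1)))) (m : ℕ)
    (x : Fin n → ℤ), 1 ≤ m → Apart m x →
      (∀ i, |prob (move x i) A - prob x A| ≤ K / m) ∧
      (∀ i j, i ≠ j → |prob (move (move x i) j) A - prob (move x i) A - prob (move x j) A +
        prob x A| ≤ K / (m:ℝ) ^ 2) ∧
      ∀ i, |prob (move (move x i) i) A - prob (move x i) A - prob (move x i) A +
        prob x A| ≤ n * K / (m:ℝ) ^ 2 := by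
  obtain ⟨K, hK, h⟩ := diffs2
  refine ⟨K, hK, ?_, h⟩
  intro n A
  refine ⟨by linarith, by positivity, ?_, ?_, ?_⟩
  · intro x
    have := prob_01 A x
    rw [abs_le]; constructor <;> linarith [this.1, this.2]
  · intro m x hm hx i
    exact (h n A m x hm hx).1 i
  · intro m x hm hx i j
    by_cases hij : i = j
    · subst hij
      exact (h n A m x hm hx).2.2 i
    · refine ((h n A m x hm hx).2.1 i j hij).trans ?_
      apply div_le_div_of_nonneg_right _ (by positivity)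
      have hn : (1:ℝ) ≤ n := by
        have : 1 ≤ n := by have := i.isLt; omega
        exact_mod_cast this
      nlinarith

/-! ### The hitting point -/

/-- The vertex `b` is the first vertex `≥ x₁` which is joined to a vertex `< x₀`. -/
def hits (x₀ x₁ b : ℤ) (ω : sqLattice.edgeSet → Bool) : Prop :=
  (∃ a < x₀, J ω a b) ∧ ∀ c, x₁ ≤ c → c < b → ∀ a < x₀, ¬ J ω a c

/-- Some vertex of `[x₁, y)` is joined to a vertex `< x₀`. -/
def visit (x₀ x₁ y : ℤ) (ω : sqLattice.edgeSet → Bool) : Prop :=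
  ∃ a b : ℤ, a < x₀ ∧ x₁ ≤ b ∧ b < y ∧ J ω a b

theorem meas_visit (x₀ x₁ y : ℤ) : MeasurableSet {ω | visit x₀ x₁ y ω} := by
  have h : {ω | visit x₀ x₁ y ω} = ⋃ (a : ℤ) (b : ℤ) (_ : a < x₀ ∧ x₁ ≤ b ∧ b < y),
      {ω | J ω a b} := by
    ext ω
    simp only [Set.mem_iUnion]
    constructor
    · rintro ⟨a, b, h1, h2, h3, h4⟩
      exact ⟨a, b, ⟨h1, h2, h3⟩, h4⟩
    · rintro ⟨a, b, ⟨h1, h2, h3⟩, h4⟩
      exact ⟨a, b, h1, h2, h3, h4⟩
  rw [h]
  exact MeasurableSet.iUnion fun a => MeasurableSet.iUnion fun b => MeasurableSet.iUnion fun _ =>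
    meas_J a b

theorem hits_eq {x₀ x₁ b : ℤ} (hb : x₁ ≤ b) :
    mu.real {ω | hits x₀ x₁ b ω} =
      mu.real {ω | visit x₀ x₁ (b + 1) ω} - mu.real {ω | visit x₀ x₁ b ω} := by
  have h1 : {ω | hits x₀ x₁ b ω} = {ω | visit x₀ x₁ (b + 1) ω} \ {ω | visit x₀ x₁ b ω} := by
    ext ω
    constructor
    · rintro ⟨⟨a, ha, hJ⟩, h2⟩
      refine ⟨⟨a, b, ha, hb, by omega, hJ⟩, ?_⟩
      rintro ⟨a', c, ha', hc, hcb, hJ'⟩
      exact h2 c hc hcb a' ha' hJ'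
    · rintro ⟨⟨a, c, ha, hc, hcb, hJ⟩, h2⟩
      have hcb' : c = b := by
        by_contra hne
        exact h2 ⟨a, c, ha, hc, by omega, hJ⟩
      subst hcb'
      refine ⟨⟨a, ha, hJ⟩, ?_⟩
      intro c' hc' hcb' a' ha' hJ'
      exact h2 ⟨a', c', ha', hc', hcb', hJ'⟩
  rw [h1, measureReal_sdiff _ (meas_visit _ _ _)]
  rintro ω ⟨a, c, ha, hc, hcb, hJ⟩
  exact ⟨a, c, ha, hc, by omega, hJ⟩

/-- Three marks. -/
def tri (x₀ x₁ y : ℤ) : Fin 3 → ℤ := ![x₀, x₁, y]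

/-- The event that the arcs `0` and `2` are joined. -/
def A02 : Set (Finset (Fin (3 + 1) × Fin (3 + 1))) := {P | ((0 : Fin 4), (2 : Fin 4)) ∈ P}

theorem arc_tri0 {x₀ x₁ y a : ℤ} (h1 : x₀ ≤ x₁) (h2 : x₁ ≤ y) :
    arc (tri x₀ x₁ y) a = (0 : Fin 4) ↔ a < x₀ := by
  constructor
  · intro h
    by_contra hc
    have h3 : (arc (tri x₀ x₁ y) a : ℕ) = 0 := by rw [h]; rfl
    have h4 : (Finset.univ.filter fun j => tri x₀ x₁ y j ≤ a).card = 0 := h3
    rw [Finset.card_eq_zero] at h4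
    have h5 : (0 : Fin 3) ∈ Finset.univ.filter fun j => tri x₀ x₁ y j ≤ a := by
      simp [tri]; omega
    rw [h4] at h5
    exact absurd h5 (Finset.notMem_empty _)
  · intro h
    apply Fin.ext
    show (Finset.univ.filter fun j => tri x₀ x₁ y j ≤ a).card = 0
    rw [Finset.card_eq_zero, Finset.filter_eq_empty_iff]
    intro j _
    fin_cases j <;> simp [tri] <;> omega

theorem arc_tri2 {x₀ x₁ y a : ℤ} (h1 : x₀ ≤ x₁) (h2 : x₁ ≤ y) :
    arc (tri x₀ x₁ y) a = (2 : Fin 4) ↔ x₁ ≤ a ∧ a < y := by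
  have hcard : (arc (tri x₀ x₁ y) a : ℕ) =
      (if x₀ ≤ a then 1 else 0) + (if x₁ ≤ a then 1 else 0) + (if y ≤ a then 1 else 0) := by
    show (Finset.univ.filter fun j => tri x₀ x₁ y j ≤ a).card = _
    rw [Finset.card_filter, Fin.sum_univ_three]
    have t0 : tri x₀ x₁ y 0 = x₀ := rfl
    have t1 : tri x₀ x₁ y 1 = x₁ := rfl
    have t2 : tri x₀ x₁ y 2 = y := rfl
    rw [t0, t1, t2]
  rw [Fin.ext_iff, hcard]
  have : ((2 : Fin 4) : ℕ) = 2 := rfl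
  rw [this]
  split_ifs <;> omega

theorem visit_eq {x₀ x₁ y : ℤ} (h1 : x₀ ≤ x₁) (h2 : x₁ ≤ y) :
    mu.real {ω | visit x₀ x₁ y ω} = prob (tri x₀ x₁ y) A02 := by
  unfold prob
  congr 1
  ext ω
  show visit x₀ x₁ y ω ↔ ((0 : Fin 4), (2 : Fin 4)) ∈ pat (tri x₀ x₁ y) ω
  rw [mem_pat]
  constructor
  · rintro ⟨a, b, ha, hb, hby, hJ⟩
    exact ⟨Or.inl le_rfl, a, b, (arc_tri0 h1 h2).mpr ha, (arc_tri2 h1 h2).mpr ⟨hb, hby⟩, hJ⟩
  · rintro ⟨-, a, b, ha, hb, hJ⟩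
    obtain ⟨hb1, hb2⟩ := (arc_tri2 h1 h2).mp hb
    exact ⟨a, b, (arc_tri0 h1 h2).mp ha, hb1, hb2, hJ⟩

theorem tri_move (x₀ x₁ y : ℤ) : move (tri x₀ x₁ y) 2 = tri x₀ x₁ (y + 1) := by
  ext j
  fin_cases j <;> simp [move, tri]

theorem tri_apart {x₀ x₁ y : ℤ} {m : ℕ} (h1 : x₀ + m ≤ x₁) (h2 : x₁ + m ≤ y) :
    Apart m (tri x₀ x₁ y) := by
  intro i j hij
  fin_cases i <;> fin_cases j <;> simp [tri] at hij ⊢ <;> omega

theorem hits_prob {x₀ x₁ b : ℤ} (h1 : x₀ ≤ x₁) (h2 : x₁ ≤ b) :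
    mu.real {ω | hits x₀ x₁ b ω} =
      prob (move (tri x₀ x₁ b) 2) A02 - prob (tri x₀ x₁ b) A02 := by
  rw [hits_eq h2, visit_eq h1 (by omega), visit_eq h1 h2, tri_move]

/-- The law of the hitting point. -/
theorem hit_law : ∃ K : ℝ, 1 ≤ K ∧ ∀ (x₀ x₁ b : ℤ) (m : ℕ), 1 ≤ m → x₀ + m ≤ x₁ → x₁ + m ≤ b →
    mu.real {ω | hits x₀ x₁ b ω} ≤ K / m ∧
    |mu.real {ω | hits x₀ x₁ (b + 1) ω} - mu.real {ω | hits x₀ x₁ b ω}| ≤ K / (m:ℝ) ^ 2 := by
  obtain ⟨K, hK, h⟩ := diffs2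
  refine ⟨3 * K, by linarith, ?_⟩
  intro x₀ x₁ b m hm h1 h2
  obtain ⟨q1, -, q3⟩ := h 3 A02 m (tri x₀ x₁ b) hm (tri_apart h1 h2)
  have r1 := q1 2
  have r3 := q3 2
  rw [tri_move] at r1 r3
  rw [tri_move] at r3
  have e0 := visit_eq (x₀ := x₀) (x₁ := x₁) (y := b) (by omega) (by omega)
  have e1 := visit_eq (x₀ := x₀) (x₁ := x₁) (y := b + 1) (by omega) (by omega)
  have e2 := visit_eq (x₀ := x₀) (x₁ := x₁) (y := b + 1 + 1) (by omega) (by omega)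
  rw [hits_eq (by omega), hits_eq (by omega), e0, e1, e2]
  have hm0 : (0:ℝ) < m := by exact_mod_cast hm
  constructor
  · refine (le_abs_self _).trans (r1.trans ?_)
    exact div_le_div_of_nonneg_right (by linarith) hm0.le
  · have e : prob (tri x₀ x₁ (b + 1 + 1)) A02 - prob (tri x₀ x₁ (b + 1)) A02 -
        (prob (tri x₀ x₁ (b + 1)) A02 - prob (tri x₀ x₁ b) A02) =
        prob (tri x₀ x₁ (b + 1 + 1)) A02 - prob (tri x₀ x₁ (b + 1)) A02 -
        prob (tri x₀ x₁ (b + 1)) A02 + prob (tri x₀ x₁ b) A02 := by ring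
    rw [e]
    refine r3.trans (le_of_eq ?_)
    push_cast
    ring

end Pool.Agent.Run7.h733.CP
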