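import Pool.Agent.Run7.h733.CP.Inf

/-!
The connection pattern of the arcs between `n` marked boundary points, and the differences of its
law with respect to the marked points.
-/

set_option maxHeartbeats 1000000

namespace Pool.Agent.Run7.h733.CP

open H974 H973S H12S Finset MeasureTheory

variable {n : ℕ}

open Classical in
/-- The index of the arc which contains `a`: the number of marks `≤ a`. -/
noncomputable def arc (x : Fin n → ℤ) (a : ℤ) : Fin (n + 1) :=
  ⟨(Finset.univ.filter fun j => x j ≤ a).card, by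
    have h := Finset.card_le_univ (Finset.univ.filter fun j => x j ≤ a)
    rw [Fintype.card_fin] at h
    omega⟩

/-- Two arcs which are neither equal nor adjacent. -/
def Far (p : Fin (n + 1) × Fin (n + 1)) : Prop :=
  (p.1 : ℕ) + 2 ≤ p.2 ∨ (p.2 : ℕ) + 2 ≤ p.1

/-- The arcs `k` and `l` are joined. -/
def Rel (x : Fin n → ℤ) (ω : sqLattice.edgeSet → Bool) (k l : Fin (n + 1)) : Prop :=
  ∃ a b, arc x a = k ∧ arc x b = l ∧ J ω a b

theorem Rel.symm {x : Fin n → ℤ} {ω : sqLattice.edgeSet → Bool} {k l : Fin (n + 1)}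
    (h : Rel x ω k l) : Rel x ω l k := by
  obtain ⟨a, b, h1, h2, h3⟩ := h
  exact ⟨b, a, h2, h1, h3.symm⟩

open Classical in
/-- The pattern: the pairs of non-adjacent arcs which are joined. -/
noncomputable def pat (x : Fin n → ℤ) (ω : sqLattice.edgeSet → Bool) :
    Finset (Fin (n + 1) × Fin (n + 1)) :=
  Finset.univ.filter fun p => Far p ∧ Rel x ω p.1 p.2

theorem mem_pat {x : Fin n → ℤ} {ω : sqLattice.edgeSet → Bool}
    {p : Fin (n + 1) × Fin (n + 1)} : p ∈ pat x ω ↔ Far p ∧ Rel x ω p.1 p.2 := by
  classical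
  unfold pat
  rw [Finset.mem_filter]
  exact ⟨fun h => h.2, fun h => ⟨Finset.mem_univ _, h⟩⟩

/-- The law of the pattern. -/
noncomputable def prob (x : Fin n → ℤ) (A : Set (Finset (Fin (n + 1) × Fin (n + 1)))) : ℝ :=
  mu.real {ω | pat x ω ∈ A}

/-- The `i`-th mark is moved by one. -/
def move (x : Fin n → ℤ) (i : Fin n) : Fin n → ℤ := Function.update x i (x i + 1)

/-- Any two marks are at distance at least `m`. -/
def Apart (m : ℕ) (x : Fin n → ℤ) : Prop := ∀ i j, i < j → x i + m ≤ x j

theorem move_self (x : Fin n → ℤ) (i : Fin n) : move x i i = x i + 1 := by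
  unfold move; simp

theorem move_ne (x : Fin n → ℤ) {i j : Fin n} (h : j ≠ i) : move x i j = x j := by
  unfold move; simp [h]

theorem move_le (x : Fin n → ℤ) (i j : Fin n) : x j ≤ move x i j ∧ move x i j ≤ x j + 1 := by
  by_cases h : j = i
  · subst h; rw [move_self]; omega
  · rw [move_ne x h]; omega

theorem Apart.move {m : ℕ} {x : Fin n → ℤ} (h : Apart (m + 1) x) (i : Fin n) :
    Apart m (move x i) := by
  intro j k hjk
  have h1 := h j k hjk
  have h2 := move_le x i j
  have h3 := move_le x i k
  push_cast at h1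
  omega

theorem Apart.anti {m m' : ℕ} {x : Fin n → ℤ} (h : Apart m x) (hm : m' ≤ m) : Apart m' x := by
  intro j k hjk
  have h1 := h j k hjk
  omega

/-- The arc of a point only depends on its position with respect to the marks. -/
theorem arc_congr {x y : Fin n → ℤ} {a b : ℤ} (h : ∀ j, x j ≤ a ↔ y j ≤ b) :
    arc x a = arc y b := by
  classical
  apply Fin.ext
  show (Finset.univ.filter fun j => x j ≤ a).card = (Finset.univ.filter fun j => y j ≤ b).card
  congr 1
  ext j
  simp only [Finset.mem_filter, Finset.mem_univ, true_and]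
  exact h j

theorem arc_move {x : Fin n → ℤ} {i : Fin n} {a : ℤ} (ha : a ≠ x i) :
    arc (move x i) a = arc x a := by
  apply arc_congr
  intro j
  by_cases h : j = i
  · subst h; rw [move_self]; omega
  · rw [move_ne x h]

theorem arc_val_succ {x : Fin n → ℤ} {i : Fin n} {a : ℤ} (h1 : ∀ j, j ≤ i → x j ≤ a)
    (h2 : ∀ j, i < j → a < x j) : (arc x a : ℕ) = i + 1 := by
  classical
  show (Finset.univ.filter fun j => x j ≤ a).card = i + 1
  rw [← Fin.card_Iic]
  congr 1
  ext j
  simp only [Finset.mem_filter, Finset.mem_univ, true_and, Finset.mem_Iic]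
  constructor
  · intro h
    by_contra hc
    have := h2 j (not_le.mp hc)
    omega
  · exact h1 j

theorem arc_val {x : Fin n → ℤ} {i : Fin n} {a : ℤ} (h1 : ∀ j, j < i → x j ≤ a)
    (h2 : ∀ j, i ≤ j → a < x j) : (arc x a : ℕ) = i := by
  classical
  show (Finset.univ.filter fun j => x j ≤ a).card = i
  rw [← Fin.card_Iio]
  congr 1
  ext j
  simp only [Finset.mem_filter, Finset.mem_univ, true_and, Finset.mem_Iio]
  constructor
  · intro h
    by_contra hc
    have := h2 j (not_lt.mp hc)
    omega
  · exact h1 j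

theorem arc_right {m : ℕ} {x : Fin n → ℤ} (hx : Apart m x) {i : Fin n} {b : ℤ}
    (h : (i : ℕ) + 2 ≤ arc x b) : x i + m ≤ b := by
  classical
  by_contra hc
  have h1 : (arc x b : ℕ) ≤ i + 1 := by
    show (Finset.univ.filter fun j => x j ≤ b).card ≤ i + 1
    rw [← Fin.card_Iic]
    apply Finset.card_le_card
    intro j hj
    simp only [Finset.mem_filter, Finset.mem_univ, true_and] at hj
    rw [Finset.mem_Iic]
    by_contra hji
    have := hx i j (not_le.mp hji)
    omega
  omega

theorem arc_left {m : ℕ} {x : Fin n → ℤ} (hx : Apart m x) {i : Fin n} {b : ℤ}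
    (h : (arc x b : ℕ) + 1 ≤ i) : b < x i - m := by
  classical
  by_contra hc
  have h1 : (i : ℕ) ≤ arc x b := by
    show (i : ℕ) ≤ (Finset.univ.filter fun j => x j ≤ b).card
    rw [← Fin.card_Iio]
    apply Finset.card_le_card
    intro j hj
    rw [Finset.mem_Iio] at hj
    simp only [Finset.mem_filter, Finset.mem_univ, true_and]
    have := hx j i hj
    omega
  omega

/-- If moving a mark changes the pattern then the local event occurs at the mark. -/
theorem change {m r : ℕ} {x : Fin n → ℤ} (hx : Apart m x) (hr : r < m) {i : Fin n}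
    {ω : sqLattice.edgeSet → Bool} (h : pat (move x i) ω ≠ pat x ω) : ω ∈ G (x i) r := by
  obtain ⟨w, hw⟩ : ∃ w, w = x i := ⟨_, rfl⟩
  rw [← hw]
  have hmv : move x i i = w + 1 := by rw [move_self, ← hw]
  -- the arcs near `w`
  have aw : (arc x w : ℕ) = i + 1 := by
    apply arc_val_succ
    · intro j hj
      rcases eq_or_lt_of_le hj with rfl | hj
      · omega
      · have := hx j i hj; omega
    · intro j hj
      have := hx i j hj; omega
  have aw' : (arc (move x i) w : ℕ) = i := by
    apply arc_val
    · intro j hj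
      rw [move_ne x hj.ne]
      have := hx j i hj; omega
    · intro j hj
      rcases eq_or_lt_of_le hj with rfl | hj
      · omega
      · rw [move_ne x hj.ne']
        have := hx i j hj; omega
  have aR : ∀ j : ℕ, 1 ≤ j → j ≤ r → arc (move x i) (w + 1 * j) = arc x w := by
    intro j j1 j2
    rw [arc_move (by omega)]
    apply Fin.ext
    rw [aw]
    apply arc_val_succ
    · intro k hk
      rcases eq_or_lt_of_le hk with rfl | hk
      · omega
      · have := hx k i hk; omega
    · intro k hk
      have := hx i k hk; omega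
  have aL : ∀ j : ℕ, 1 ≤ j → j ≤ r → arc x (w + (-1) * j) = arc (move x i) w := by
    intro j j1 j2
    apply Fin.ext
    rw [aw']
    apply arc_val
    · intro k hk
      have := hx k i hk; omega
    · intro k hk
      rcases eq_or_lt_of_le hk with rfl | hk
      · omega
      · have := hx i k hk; omega
  -- far away
  have far : ∀ b : ℤ, b ≠ w → ((i : ℕ) + 2 ≤ arc x b ∨ (arc x b : ℕ) + 1 ≤ i) →
      (b ≤ w - r ∨ w + r ≤ b) := by
    intro b _ hb
    rcases hb with hb | hb
    · have := arc_right hx hb; omega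
    · have := arc_left hx hb; omega
  by_contra hG
  have hG1 : ¬ T 1 w r (opn ω) := fun h1 => hG (Or.inl h1)
  have hG2 : ¬ T (-1) w r (opn ω) := fun h1 => hG (Or.inr h1)
  apply h
  -- a pair of the old pattern
  have old : ∀ k l : Fin (n + 1), Far (k, l) → Rel x ω k l → Rel (move x i) ω k l := by
    -- the case that the first vertex is `w`
    have first : ∀ (k l : Fin (n + 1)) (b : ℤ), Far (k, l) → arc x w = k → arc x b = l →
        J ω w b → Rel (move x i) ω k l := by
      intro k l b hF hk hl hJ
      have hbw : b ≠ w := by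
        rintro rfl
        rw [hk] at hl
        subst hl
        rcases hF with hF | hF <;> simp only at hF <;> omega
      have hb : b ≤ w - r ∨ w + r ≤ b := by
        apply far b hbw
        rw [hl]
        have : (k : ℕ) = i + 1 := by rw [← hk, aw]
        rcases hF with hF | hF <;> simp only at hF <;> omega
      by_contra hno
      apply hG1
      apply T_of hJ hb
      intro j j1 j2 hJ2
      apply hno
      refine ⟨w + 1 * j, b, ?_, ?_, hJ2.symm.trans hJ⟩
      · rw [aR j j1 j2, hk]
      · rw [arc_move (by omega), hl]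
    rintro k l hF ⟨a, b, ha, hb, hJ⟩
    by_cases h1 : a = w
    · rw [h1] at ha hJ
      exact first k l b hF ha hb hJ
    · by_cases h2 : b = w
      · rw [h2] at hb hJ
        exact (first l k a hF.symm hb ha hJ.symm).symm
      · exact ⟨a, b, by rw [arc_move (by omega), ha], by rw [arc_move (by omega), hb], hJ⟩
  have new : ∀ k l : Fin (n + 1), Far (k, l) → Rel (move x i) ω k l → Rel x ω k l := by
    have first : ∀ (k l : Fin (n + 1)) (b : ℤ), Far (k, l) → arc (move x i) w = k →
        arc (move x i) b = l → J ω w b → Rel x ω k l := by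
      intro k l b hF hk hl hJ
      have hbw : b ≠ w := by
        rintro rfl
        rw [hk] at hl
        subst hl
        rcases hF with hF | hF <;> simp only at hF <;> omega
      have hl' : arc x b = l := by rw [← arc_move (x := x) (i := i) (by omega), hl]
      have hb : b ≤ w - r ∨ w + r ≤ b := by
        apply far b hbw
        rw [hl']
        have : (k : ℕ) = i := by rw [← hk, aw']
        rcases hF with hF | hF <;> simp only at hF <;> omega
      by_contra hno
      apply hG2
      apply T_of hJ hb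
      intro j j1 j2 hJ2
      apply hno
      refine ⟨w + (-1) * j, b, ?_, hl', hJ2.symm.trans hJ⟩
      rw [aL j j1 j2, hk]
    rintro k l hF ⟨a, b, ha, hb, hJ⟩
    by_cases h1 : a = w
    · rw [h1] at ha hJ
      exact first k l b hF ha hb hJ
    · by_cases h2 : b = w
      · rw [h2] at hb hJ
        exact (first l k a hF.symm hb ha hJ.symm).symm
      · exact ⟨a, b, by rw [← arc_move (x := x) (i := i) (by omega), ha],
          by rw [← arc_move (x := x) (i := i) (by omega), hb], hJ⟩
  ext ⟨k, l⟩
  rw [mem_pat, mem_pat]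
  exact ⟨fun hp => ⟨hp.1, new k l hp.1 hp.2⟩, fun hp => ⟨hp.1, old k l hp.1 hp.2⟩⟩

/-! ### Measurability -/

theorem meas_Rel (x : Fin n → ℤ) (k l : Fin (n + 1)) : MeasurableSet {ω | Rel x ω k l} := by
  have h : {ω | Rel x ω k l} = ⋃ (a : ℤ) (b : ℤ) (_ : arc x a = k ∧ arc x b = l), {ω | J ω a b} := by
    ext ω
    simp only [Set.mem_iUnion]
    constructor
    · rintro ⟨a, b, h1, h2, h3⟩
      exact ⟨a, b, ⟨h1, h2⟩, h3⟩
    · rintro ⟨a, b, ⟨h1, h2⟩, h3⟩
      exact ⟨a, b, h1, h2, h3⟩
  rw [h]
  exact MeasurableSet.iUnion fun a => MeasurableSet.iUnion fun b => MeasurableSet.iUnion fun _ =>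
    meas_J a b

theorem meas_pat (x : Fin n → ℤ) (A : Set (Finset (Fin (n + 1) × Fin (n + 1)))) :
    MeasurableSet {ω | pat x ω ∈ A} := by
  classical
  have h1 : ∀ P : Finset (Fin (n + 1) × Fin (n + 1)), MeasurableSet {ω | pat x ω = P} := by
    intro P
    have h : {ω | pat x ω = P} = ⋂ p : Fin (n + 1) × Fin (n + 1),
        {ω | (Far p ∧ Rel x ω p.1 p.2) ↔ p ∈ P} := by
      ext ω
      simp only [Set.mem_iInter, Set.mem_ofPred_eq]
      rw [Finset.ext_iff]
      exact forall_congr' fun p => by rw [mem_pat]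
    rw [h]
    refine MeasurableSet.iInter fun p => ?_
    have hm : MeasurableSet {ω | Far p ∧ Rel x ω p.1 p.2} := by
      have : {ω | Far p ∧ Rel x ω p.1 p.2} = {_ω | Far p} ∩ {ω | Rel x ω p.1 p.2} := rfl
      rw [this]
      exact (MeasurableSet.const _).inter (meas_Rel x p.1 p.2)
    by_cases hp : p ∈ P
    · have : {ω | (Far p ∧ Rel x ω p.1 p.2) ↔ p ∈ P} = {ω | Far p ∧ Rel x ω p.1 p.2} := by
        ext ω
        simp [hp]
      rw [this]; exact hm
    · have : {ω | (Far p ∧ Rel x ω p.1 p.2) ↔ p ∈ P} = {ω | Far p ∧ Rel x ω p.1 p.2}ᶜ := by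
        ext ω
        simp [hp]
      rw [this]; exact hm.compl
  have h2 : {ω | pat x ω ∈ A} = ⋃ (P : Finset (Fin (n + 1) × Fin (n + 1))) (_ : P ∈ A),
      {ω | pat x ω = P} := by
    ext ω
    simp
  rw [h2]
  exact MeasurableSet.iUnion fun P => MeasurableSet.iUnion fun _ => h1 P

/-! ### Translations -/

theorem arc_add (x : Fin n → ℤ) (t a : ℤ) : arc (fun i => x i + t) (a + t) = arc x a :=
  arc_congr fun j => by simp

theorem pat_tau (x : Fin n → ℤ) (t : ℤ) (ω : sqLattice.edgeSet → Bool) :
    pat (fun i => x i + t) (tau t ω) = pat x ω := by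
  have h : ∀ k l, Rel (fun i => x i + t) (tau t ω) k l ↔ Rel x ω k l := by
    intro k l
    constructor
    · rintro ⟨a, b, h1, h2, h3⟩
      refine ⟨a - t, b - t, ?_, ?_, ?_⟩
      · rw [← arc_add x t, sub_add_cancel]; exact h1
      · rw [← arc_add x t, sub_add_cancel]; exact h2
      · rw [← tau_J t, sub_add_cancel, sub_add_cancel]; exact h3
    · rintro ⟨a, b, h1, h2, h3⟩
      exact ⟨a + t, b + t, by rw [arc_add, h1], by rw [arc_add, h2], (tau_J t ω a b).mpr h3⟩
  ext p
  rw [mem_pat, mem_pat, h]

theorem prob_add (x : Fin n → ℤ) (t : ℤ) (A : Set (Finset (Fin (n + 1) × Fin (n + 1)))) :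
    prob (fun i => x i + t) A = prob x A := by
  unfold prob
  have h1 : mu.real {ω | pat (fun i => x i + t) ω ∈ A} =
      (mu.map (tau t)).real {ω | pat (fun i => x i + t) ω ∈ A} := by
    have : mu.map (tau t) = mu := tau_map hlf t
    rw [this]
  rw [h1, map_measureReal_apply (tau t).measurable (meas_pat _ A)]
  congr 1
  ext ω
  show pat (fun i => x i + t) (tau t ω) ∈ A ↔ pat x ω ∈ A
  rw [pat_tau]

end Pool.Agent.Run7.h733.CP
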