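import Pool.Agent.Run7.h733.CP.Diff

/-!
Taylor expansion for functions of lattice points, from bounds of the second differences.
-/

set_option maxHeartbeats 1000000

namespace Pool.Agent.Run7.h733.CP

open Finset

variable {n : ℕ}

/-- The `ℓ¹` distance. -/
def dst (y x : Fin n → ℤ) : ℕ := ∑ j, (y j - x j).natAbs

theorem dst_zero {y x : Fin n → ℤ} (h : dst y x = 0) : y = x := by
  ext j
  have h1 : (y j - x j).natAbs = 0 :=
    (Finset.sum_eq_zero_iff.mp h) j (Finset.mem_univ j)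
  omega

/-- One step towards `x`. -/
theorem dst_step {y x : Fin n → ℤ} {d : ℕ} (h : dst y x = d + 1) :
    ∃ (y' : Fin n → ℤ) (j : Fin n), dst y' x = d ∧ (∀ i, |y' i - x i| ≤ |y i - x i|) ∧
      ((y = move y' j) ∨ (y' = move y j)) := by
  have hex : ∃ j, y j ≠ x j := by
    by_contra hc
    push Not at hc
    have : dst y x = 0 := Finset.sum_eq_zero fun j _ => by rw [hc j]; simp
    omega
  obtain ⟨j, hj⟩ := hex
  -- the distance of an update
  have hupd : ∀ c : ℤ, (c - x j).natAbs + 1 = (y j - x j).natAbs →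
      dst (Function.update y j c) x = d := by
    intro c hc
    unfold dst at h ⊢
    rw [← Finset.add_sum_erase _ _ (Finset.mem_univ j)] at h ⊢
    have h1 : ∑ k ∈ Finset.univ.erase j, (Function.update y j c k - x k).natAbs =
        ∑ k ∈ Finset.univ.erase j, (y k - x k).natAbs := by
      apply Finset.sum_congr rfl
      intro k hk
      rw [Function.update_of_ne (Finset.ne_of_mem_erase hk)]
    rw [h1, Function.update_self]
    omega
  have hle : ∀ c : ℤ, (c - x j).natAbs + 1 = (y j - x j).natAbs →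
      ∀ i, |Function.update y j c i - x i| ≤ |y i - x i| := by
    intro c hc i
    by_cases hi : i = j
    · subst hi
      rw [Function.update_self, Int.abs_eq_natAbs, Int.abs_eq_natAbs]
      omega
    · rw [Function.update_of_ne hi]
  rcases lt_or_gt_of_ne hj with hlt | hgt
  · have hc : (y j + 1 - x j).natAbs + 1 = (y j - x j).natAbs := by omega
    exact ⟨move y j, j, hupd _ hc, hle _ hc, Or.inr rfl⟩
  · have hc : (y j - 1 - x j).natAbs + 1 = (y j - x j).natAbs := by omega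
    refine ⟨Function.update y j (y j - 1), j, hupd _ hc, hle _ hc, Or.inl ?_⟩
    ext k
    by_cases hk : k = j
    · subst hk; rw [move_self, Function.update_self]; ring
    · rw [move_ne _ hk, Function.update_of_ne hk]

/-- The first difference. -/
def dd (P : (Fin n → ℤ) → ℝ) (i : Fin n) (x : Fin n → ℤ) : ℝ := P (move x i) - P x

theorem lip {P : (Fin n → ℤ) → ℝ} {x : Fin n → ℤ} {k : ℕ} {B : ℝ}
    (hB : ∀ z, (∀ i, |z i - x i| ≤ (k:ℤ)) → ∀ i, |P (move z i) - P z| ≤ B) :
    ∀ (d : ℕ) (y : Fin n → ℤ), dst y x = d → (∀ i, |y i - x i| ≤ (k:ℤ)) → |P y - P x| ≤ B * d := by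
  intro d
  induction d with
  | zero =>
    intro y hy _
    rw [dst_zero hy]; simp
  | succ d ih =>
    intro y hy hk
    obtain ⟨y', j, h1, h2, h3⟩ := dst_step hy
    have hk' : ∀ i, |y' i - x i| ≤ (k:ℤ) := fun i => (h2 i).trans (hk i)
    have h4 := ih y' h1 hk'
    have h5 : |P y - P y'| ≤ B := by
      rcases h3 with rfl | rfl
      · exact hB y' hk' j
      · rw [abs_sub_comm]; exact hB y hk j
    have h6 : |P y - P x| ≤ |P y - P y'| + |P y' - P x| := abs_sub_le _ _ _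
    push_cast
    linarith

theorem dd_lip {P : (Fin n → ℤ) → ℝ} {x : Fin n → ℤ} {k : ℕ} {B : ℝ}
    (hB : ∀ z, (∀ i, |z i - x i| ≤ (k:ℤ)) → ∀ i j,
      |P (move (move z i) j) - P (move z i) - P (move z j) + P z| ≤ B) :
    ∀ (d : ℕ) (y : Fin n → ℤ), dst y x = d → (∀ i, |y i - x i| ≤ (k:ℤ)) →
      ∀ i, |dd P i y - dd P i x| ≤ B * d := by
  intro d y hy hk i
  apply lip (P := dd P i) (x := x) (k := k) (B := B) _ d y hy hk
  intro z hz j
  have h := hB z hz i j
  unfold dd
  rw [move_comm z j i]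
  have e : P (move (move z i) j) - P (move z j) - (P (move z i) - P z) =
      P (move (move z i) j) - P (move z i) - P (move z j) + P z := by ring
  rw [e]; exact h

theorem taylor {P : (Fin n → ℤ) → ℝ} {x : Fin n → ℤ} {k : ℕ} {B : ℝ} (hB0 : 0 ≤ B)
    (hB : ∀ z, (∀ i, |z i - x i| ≤ (k:ℤ)) → ∀ i j,
      |P (move (move z i) j) - P (move z i) - P (move z j) + P z| ≤ B) :
    ∀ (d : ℕ) (y : Fin n → ℤ), dst y x = d → (∀ i, |y i - x i| ≤ (k:ℤ)) →
      |P y - P x - ∑ i, ((y i - x i : ℤ) : ℝ) * dd P i x| ≤ B * (d:ℝ) ^ 2 := by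
  intro d
  induction d with
  | zero =>
    intro y hy _
    rw [dst_zero hy]; simp
  | succ d ih =>
    intro y hy hk
    obtain ⟨y', j, h1, h2, h3⟩ := dst_step hy
    have hk' : ∀ i, |y' i - x i| ≤ (k:ℤ) := fun i => (h2 i).trans (hk i)
    have h4 := ih y' h1 hk'
    -- the change of the linear term
    have hlin : ∀ z : Fin n → ℤ, ∑ i, ((move z j i - x i : ℤ) : ℝ) * dd P i x =
        ∑ i, ((z i - x i : ℤ) : ℝ) * dd P i x + dd P j x := by
      intro z
      rw [← Finset.add_sum_erase _ _ (Finset.mem_univ j),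
        ← Finset.add_sum_erase Finset.univ (fun i => ((z i - x i : ℤ) : ℝ) * dd P i x)
          (Finset.mem_univ j)]
      have h5 : ∑ i ∈ Finset.univ.erase j, ((move z j i - x i : ℤ) : ℝ) * dd P i x =
          ∑ i ∈ Finset.univ.erase j, ((z i - x i : ℤ) : ℝ) * dd P i x := by
        apply Finset.sum_congr rfl
        intro i hi
        rw [move_ne _ (Finset.ne_of_mem_erase hi)]
      rw [h5, move_self]
      push_cast
      ring
    have hd : (0:ℝ) ≤ d := Nat.cast_nonneg d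
    rcases h3 with h3 | h3
    · have h6 := dd_lip hB d y' h1 hk' j
      have h7 := hlin y'
      rw [← h3] at h7
      have h8 : dd P j y' = P y - P y' := by unfold dd; rw [← h3]
      rw [h8] at h6
      rw [h7]
      have e : P y - P x - (∑ i, ((y' i - x i : ℤ) : ℝ) * dd P i x + dd P j x) =
          (P y' - P x - ∑ i, ((y' i - x i : ℤ) : ℝ) * dd P i x) + (P y - P y' - dd P j x) := by
        ring
      rw [e]
      refine (abs_add_le _ _).trans ((add_le_add h4 h6).trans ?_)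
      rw [Nat.cast_succ]
      nlinarith
    · have h6 := dd_lip hB (d + 1) y hy hk j
      have h7 := hlin y
      rw [← h3] at h7
      have h8 : dd P j y = P y' - P y := by unfold dd; rw [← h3]
      rw [h8] at h6
      have e : P y - P x - ∑ i, ((y i - x i : ℤ) : ℝ) * dd P i x =
          (P y' - P x - ∑ i, ((y' i - x i : ℤ) : ℝ) * dd P i x) - (P y' - P y - dd P j x) := by
        rw [h7]; ring
      rw [e]
      refine (abs_sub _ _).trans ((add_le_add h4 h6).trans ?_)
      rw [Nat.cast_succ]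
      nlinarith [mul_nonneg hB0 hd]

/-- The hypotheses on the differences. -/
structure Reg (K L : ℝ) (P : (Fin n → ℤ) → ℝ) : Prop where
  hK : 0 ≤ K
  hL : 0 ≤ L
  b0 : ∀ x, |P x| ≤ 1
  d1 : ∀ (m : ℕ) (x : Fin n → ℤ), 1 ≤ m → Apart m x → ∀ i, |P (move x i) - P x| ≤ K / m
  d2 : ∀ (m : ℕ) (x : Fin n → ℤ), 1 ≤ m → Apart m x → ∀ i j,
    |P (move (move x i) j) - P (move x i) - P (move x j) + P x| ≤ L / (m:ℝ) ^ 2

theorem near_apart {m k : ℕ} {x z : Fin n → ℤ} (hx : Apart (m + 2 * k) x)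
    (hz : ∀ i, |z i - x i| ≤ (k:ℤ)) : Apart m z := by
  intro i j hij
  have h1 := hx i j hij
  have h2 := abs_le.mp (hz i)
  have h3 := abs_le.mp (hz j)
  push_cast at h1
  omega

theorem Reg.lip {K L : ℝ} {P : (Fin n → ℤ) → ℝ} (h : Reg K L P) {m k : ℕ} {x y : Fin n → ℤ}
    (hm : 1 ≤ m) (hx : Apart (m + 2 * k) x) (hy : ∀ i, |y i - x i| ≤ (k:ℤ)) :
    |P y - P x| ≤ K / m * dst y x :=
  CP.lip (k := k) (fun z hz i => h.d1 m z hm (near_apart hx hz) i) _ y rfl hy

theorem Reg.dd_lip {K L : ℝ} {P : (Fin n → ℤ) → ℝ} (h : Reg K L P) {m k : ℕ} {x y : Fin n → ℤ}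
    (hm : 1 ≤ m) (hx : Apart (m + 2 * k) x) (hy : ∀ i, |y i - x i| ≤ (k:ℤ)) (i : Fin n) :
    |dd P i y - dd P i x| ≤ L / (m:ℝ) ^ 2 * dst y x :=
  CP.dd_lip (k := k) (fun z hz i j => h.d2 m z hm (near_apart hx hz) i j) _ y rfl hy i

theorem Reg.taylor {K L : ℝ} {P : (Fin n → ℤ) → ℝ} (h : Reg K L P) {m k : ℕ} {x y : Fin n → ℤ}
    (hm : 1 ≤ m) (hx : Apart (m + 2 * k) x) (hy : ∀ i, |y i - x i| ≤ (k:ℤ)) :
    |P y - P x - ∑ i, ((y i - x i : ℤ) : ℝ) * dd P i x| ≤ L / (m:ℝ) ^ 2 * (dst y x : ℝ) ^ 2 :=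
  CP.taylor (k := k) (by have := h.hL; positivity)
    (fun z hz i j => h.d2 m z hm (near_apart hx hz) i j) _ y rfl hy

end Pool.Agent.Run7.h733.CP
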